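import Pool.Agent.Lib.MP_6cd1fc_ag.Geom

/-!
# Morphisms to affine space in terms of coordinates
-/

open AlgebraicGeometry CategoryTheory Limits TopologicalSpace Topology

namespace Pool.Agent.Lib.MP_6cd1fc_ag

variable {k : Type} [Field k]

/-- Affine space with coordinates indexed by `ι`. -/
noncomputable abbrev aff (k : Type) [Field k] (ι : Type) : Over (Spec (CommRingCat.of k)) :=
  specOver k (MvPolynomial ι k)

variable {ι : Type} {T : Over (Spec (CommRingCat.of k))}

theorem comorph_C (f : T ⟶ aff k ι) (r : k) :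
    comorph f (MvPolynomial.C r) = structMap T r :=
  congrArg (fun h => h r) (comorph_algebraMap f)

theorem aff_hom_ext {f g : T ⟶ aff k ι}
    (h : ∀ i, comorph f (MvPolynomial.X i) = comorph g (MvPolynomial.X i)) : f = g := by
  apply comorph_injective
  apply MvPolynomial.ringHom_ext
  · intro r
    rw [comorph_C, comorph_C]
  · exact h

/-- The morphism to affine space with given coordinates. -/
noncomputable def ofCoord (c : ι → Γ(T.left, ⊤)) : T ⟶ aff k ι :=
  homToSpec T (MvPolynomial.eval₂Hom (structMap T) c) (by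
    ext x
    simp [MvPolynomial.algebraMap_eq])

theorem comorph_ofCoord (c : ι → Γ(T.left, ⊤)) (i : ι) :
    comorph (ofCoord (T := T) c) (MvPolynomial.X i) = c i := by
  rw [ofCoord, comorph_homToSpec]
  simp

theorem comorph_rename {ι' : Type} (f : T ⟶ aff k ι) (ρ : ι' → ι) (i : ι') :
    comorph (f ≫ specMap k (MvPolynomial.rename ρ)) (MvPolynomial.X i) =
      comorph f (MvPolynomial.X (ρ i)) := by
  rw [comorph_comp_specMap]
  change comorph f (MvPolynomial.rename ρ (MvPolynomial.X i)) = _
  rw [MvPolynomial.rename_X]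

/-- Affine space is the product of affine spaces with fewer coordinates. -/
theorem aff_isProd {A : Type} {κ : A → Type} (ρ : ∀ a, κ a → ι)
    (hρ : Function.Bijective (fun p : Σ a, κ a => ρ p.1 p.2)) (f : ∀ a, T ⟶ aff k (κ a)) :
    ∃! g : T ⟶ aff k ι, ∀ a, g ≫ specMap k (MvPolynomial.rename (ρ a)) = f a := by
  let e := Equiv.ofBijective _ hρ
  have he : ∀ a j, e.symm (ρ a j) = ⟨a, j⟩ := fun a j => e.symm_apply_apply ⟨a, j⟩
  refine ⟨ofCoord fun i => comorph (f (e.symm i).1) (MvPolynomial.X (e.symm i).2), ?_, ?_⟩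
  · intro a
    apply aff_hom_ext
    intro j
    rw [comorph_rename, comorph_ofCoord, he]
  · intro g hg
    apply aff_hom_ext
    intro i
    rw [comorph_ofCoord, ← hg, comorph_rename]
    exact congrArg _ (congrArg _ (e.apply_symm_apply i).symm)

theorem aff_isProd_binary (m : ℕ) (f : T ⟶ aff k (Fin m)) (g : T ⟶ aff k (Fin 1)) :
    ∃! l : T ⟶ aff k (Fin (m + 1)), l ≫ specMap k (MvPolynomial.rename Fin.castSucc) = f ∧
      l ≫ specMap k (MvPolynomial.rename fun _ => Fin.last m) = g := by
  refine ⟨ofCoord (Fin.snoc (fun i => comorph f (MvPolynomial.X i))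
    (comorph g (MvPolynomial.X 0)) : Fin (m + 1) → Γ(T.left, ⊤)), ⟨?_, ?_⟩, ?_⟩
  · apply aff_hom_ext
    intro i
    rw [comorph_rename, comorph_ofCoord, Fin.snoc_castSucc]
  · apply aff_hom_ext
    intro i
    rw [comorph_rename, comorph_ofCoord, Fin.snoc_last, Subsingleton.elim i 0]
  · rintro l ⟨h1, h2⟩
    apply aff_hom_ext
    intro i
    rw [comorph_ofCoord]
    refine Fin.lastCases ?_ (fun i => ?_) i
    · rw [Fin.snoc_last, ← h2, comorph_rename]
    · rw [Fin.snoc_castSucc, ← h1, comorph_rename]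

end Pool.Agent.Lib.MP_6cd1fc_ag
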