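import Mathlib

/-!
# Counting points of finitely generated algebras over finite fields
-/

open TensorProduct

namespace Pool.Agent.Lib.MP_6cd1fc_ag

variable {k : Type*} [Field k]

/-- The number of extensions of a point of affine space to a finite algebra is bounded by the
number of module generators. -/
theorem fiber_card {P B K : Type*} [CommRing P] [CommRing B] [Field K] [Algebra P B]
    [Algebra P K] {N : ℕ} (v : Fin N → B) (hv : Submodule.span P (Set.range v) = ⊤) :
    Finite (B →ₐ[P] K) ∧ Nat.card (B →ₐ[P] K) ≤ N := by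
  have hfin : Module.Finite P B := ⟨⟨(Set.finite_range v).toFinset, by simpa using hv⟩⟩
  have e := Algebra.TensorProduct.liftEquivRight P K B K
  have hf : Finite (K ⊗[P] B →ₐ[K] K) := inferInstance
  refine ⟨Finite.of_equiv _ e.symm, ?_⟩
  rw [Nat.card_congr e]
  refine (card_algHom_le_finrank K (K ⊗[P] B) K).trans ?_
  have hspan : Submodule.span K (Set.range fun i => (1 : K) ⊗ₜ[P] v i) = ⊤ := by
    have h1 := Submodule.baseChange_span (A := K) (R := P) (Set.range v)
    rw [hv, Submodule.baseChange_top] at h1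
    rw [h1, ← Set.range_comp]
    rfl
  have := finrank_le_of_span_eq_top hspan
  simpa using this

theorem card_algHom_le (B : Type*) [CommRing B] [Algebra k B] {a : ℕ}
    (g : MvPolynomial (Fin a) k →ₐ[k] B) (hg : g.Finite) :
    ∃ N : ℕ, ∀ (K : Type) [Field K] [Algebra k K] [Finite K],
      Finite (B →ₐ[k] K) ∧ Nat.card (B →ₐ[k] K) ≤ N * (Nat.card K) ^ a := by
  let _ : Algebra (MvPolynomial (Fin a) k) B := g.toRingHom.toAlgebra
  have hfin : Module.Finite (MvPolynomial (Fin a) k) B := hg
  obtain ⟨N, v, hv⟩ := Module.Finite.exists_fin (R := MvPolynomial (Fin a) k) (M := B)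
  refine ⟨N, fun K _ _ _ => ?_⟩
  let f : (B →ₐ[k] K) → (Fin a → K) := fun φ i => φ (g (MvPolynomial.X i))
  have key : ∀ c : Fin a → K, Finite {φ : B →ₐ[k] K // f φ = c} ∧
      Nat.card {φ : B →ₐ[k] K // f φ = c} ≤ N := by
    intro c
    let ψ : MvPolynomial (Fin a) k →ₐ[k] K := MvPolynomial.aeval c
    let _ : Algebra (MvPolynomial (Fin a) k) K := ψ.toRingHom.toAlgebra
    obtain ⟨h1, h2⟩ := fiber_card (K := K) v hv
    let F : {φ : B →ₐ[k] K // f φ = c} → (B →ₐ[MvPolynomial (Fin a) k] K) := fun φ =>
      { φ.1.toRingHom with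
        commutes' := by
          intro p
          have h3 : φ.1.comp g = ψ := by
            ext i
            simpa [ψ, f] using congrFun φ.2 i
          exact congrArg (fun h : MvPolynomial (Fin a) k →ₐ[k] K => h p) h3 }
    have hF : Function.Injective F := by
      intro φ φ' h
      apply Subtype.ext
      ext b
      exact congrArg (fun h : B →ₐ[MvPolynomial (Fin a) k] K => h b) h
    exact ⟨Finite.of_injective F hF, (Nat.card_le_card_of_injective F hF).trans h2⟩
  have hfib : ∀ c : Fin a → K, Finite {φ : B →ₐ[k] K // f φ = c} := fun c => (key c).1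
  have e := Equiv.sigmaFiberEquiv f
  have : Fintype (Fin a → K) := Fintype.ofFinite _
  refine ⟨Finite.of_equiv _ e, ?_⟩
  rw [← Nat.card_congr e, Nat.card_sigma]
  calc ∑ c : Fin a → K, Nat.card {φ : B →ₐ[k] K // f φ = c} ≤ ∑ _c : Fin a → K, N :=
        Finset.sum_le_sum fun c _ => (key c).2
    _ = N * (Nat.card K) ^ a := by
        rw [Finset.sum_const, smul_eq_mul, Finset.card_univ, ← Nat.card_eq_fintype_card,
          Nat.card_fun, Nat.card_fin, mul_comm]

end Pool.Agent.Lib.MP_6cd1fc_ag
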