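import Mathlib

/-!
# The Grothendieck ring of varieties over a field and its dimension filtration
-/

open AlgebraicGeometry CategoryTheory Limits TopologicalSpace

namespace Pool.Agent.Lib.MP_6cd1fc_ag

/-- A variety over the field `k`: a separated scheme of finite type over `Spec k`
(not necessarily reduced or irreducible). -/
structure Variety (k : Type) [Field k] where
  /-- the underlying scheme over `Spec k` -/
  obj : Over (Spec (CommRingCat.of k))
  locallyOfFiniteType : LocallyOfFiniteType obj.hom
  quasiCompact : QuasiCompact obj.hom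
  separated : IsSeparated obj.hom

/-- The set of points in the image of a morphism of schemes. -/
def imageSet {X Y : Scheme.{0}} (f : X ⟶ Y) : Set Y := Set.range f

variable (k : Type) [Field k]

attribute [instance] Variety.locallyOfFiniteType Variety.quasiCompact Variety.separated

/-- The defining relations of the Grothendieck ring of varieties: `[Spec k] = 1`,
`[X] = [Y]` for isomorphic `X` and `Y`, the scissor relation `[X] = [Z] + [U]` for a closed
subscheme `Z` of `X` with open complement `U`, and `[X ×ₖ Y] = [X] [Y]`. -/
inductive K0Rel : MvPolynomial (Variety k) ℤ → Prop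
  | unit (T : Variety k) (h : IsIso T.obj.hom) : K0Rel (MvPolynomial.X T - 1)
  | iso (X Y : Variety k) (e : X.obj ≅ Y.obj) :
      K0Rel (MvPolynomial.X X - MvPolynomial.X Y)
  | scissor (X Z U : Variety k) (i : Z.obj ⟶ X.obj) (j : U.obj ⟶ X.obj)
      (hi : IsClosedImmersion i.left) (hj : IsOpenImmersion j.left)
      (h : imageSet i.left = (imageSet j.left)ᶜ) :
      K0Rel (MvPolynomial.X X - (MvPolynomial.X Z + MvPolynomial.X U))
  | prod (X Y P : Variety k) (p : P.obj ⟶ X.obj) (q : P.obj ⟶ Y.obj)
      (h : ∀ (T : Over (Spec (CommRingCat.of k))) (f : T ⟶ X.obj) (g : T ⟶ Y.obj),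
        ∃! l : T ⟶ P.obj, l ≫ p = f ∧ l ≫ q = g) :
      K0Rel (MvPolynomial.X P - MvPolynomial.X X * MvPolynomial.X Y)

/-- The Grothendieck ring `K₀(Varₖ)` of varieties over `k`: the commutative ring generated by the
classes of varieties, modulo the relations `K0Rel`. -/
def K0 : Type 1 := MvPolynomial (Variety k) ℤ ⧸ Ideal.span {f | K0Rel k f}

noncomputable instance : CommRing (K0 k) :=
  Ideal.Quotient.commRing (Ideal.span {f | K0Rel k f})

/-- The quotient map onto the Grothendieck ring. -/
noncomputable def K0.proj : MvPolynomial (Variety k) ℤ →+* K0 k :=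
  Ideal.Quotient.mk (Ideal.span {f | K0Rel k f})

variable {k}

/-- The class `[X]` in `K₀(Varₖ)`. -/
noncomputable def cls (X : Variety k) : K0 k := K0.proj k (MvPolynomial.X X)

/-- The dimension of a variety (`⊥` for the empty one). -/
noncomputable def Variety.dim (X : Variety k) : WithBot ℕ∞ := topologicalKrullDim X.obj.left

variable (k)

/-- `Spec B` as a scheme over `Spec k`, for a `k`-algebra `B`. -/
noncomputable def specOver (B : Type) [CommRing B] [Algebra k B] :
    Over (Spec (CommRingCat.of k)) :=
  Over.mk (Spec.map (CommRingCat.ofHom (algebraMap k B)))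

/-- The variety `Spec B` over `k`, for a finitely generated `k`-algebra `B`. -/
noncomputable def affineVariety (B : Type) [CommRing B] [Algebra k B] [Algebra.FiniteType k B] :
    Variety k where
  obj := specOver k B
  locallyOfFiniteType := by
    change LocallyOfFiniteType (Spec.map (CommRingCat.ofHom (algebraMap k B)))
    rw [HasRingHomProperty.Spec_iff (P := @LocallyOfFiniteType)]
    exact (RingHom.finiteType_algebraMap (A := k) (B := B)).mpr inferInstance
  quasiCompact := by
    change QuasiCompact (Spec.map (CommRingCat.ofHom (algebraMap k B)))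
    infer_instance
  separated := by
    change IsSeparated (Spec.map (CommRingCat.ofHom (algebraMap k B)))
    infer_instance

/-- Affine `m`-space `Spec k[x_0, ..., x_{m-1}]` over `k`. -/
noncomputable def affineSpace (m : ℕ) : Variety k := affineVariety k (MvPolynomial (Fin m) k)

/-- The class `𝕃 = [𝔸¹]`. -/
noncomputable def lef : K0 k := cls (affineSpace k 1)

/-- The localisation `K₀(Varₖ)[𝕃⁻¹]`. -/
def K0L : Type 1 := Localization.Away (lef k)

noncomputable instance : CommRing (K0L k) :=
  (inferInstance : CommRing (Localization.Away (lef k)))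

noncomputable instance : Algebra (K0 k) (K0L k) :=
  (inferInstance : Algebra (K0 k) (Localization.Away (lef k)))

instance : IsLocalization.Away (lef k) (K0L k) :=
  (inferInstance : IsLocalization.Away (lef k) (Localization.Away (lef k)))

/-- `𝕃` as a unit of `K₀(Varₖ)[𝕃⁻¹]`. -/
noncomputable def lefUnit : (K0L k)ˣ :=
  (IsLocalization.Away.algebraMap_isUnit (S := K0L k) (lef k)).unit

variable {k}

/-- The class `[X]` in `K₀(Varₖ)[𝕃⁻¹]`. -/
noncomputable def clsL (X : Variety k) : K0L k := algebraMap (K0 k) (K0L k) (cls X)

variable (k)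

/-- The subgroup `F_m` generated by all `[X] 𝕃^{-p}` with `dim X - p ≤ -m`. -/
noncomputable def filt (m : ℤ) : AddSubgroup (K0L k) :=
  AddSubgroup.closure {x | ∃ (X : Variety k) (e : ℕ) (p : ℤ), X.dim ≤ (e : ℕ∞) ∧
    (e : ℤ) - p ≤ -m ∧ x = clsL X * ((lefUnit k ^ (-p) : (K0L k)ˣ) : K0L k)}

end Pool.Agent.Lib.MP_6cd1fc_ag
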