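import Mathlib

/-!
# Dimension theory used for the Grothendieck ring of varieties
-/

open TopologicalSpace Topology

namespace Pool.Agent.Lib.MP_6cd1fc_ag

/-- The topological Krull dimension can be bounded locally. -/
theorem topDim_le_of_local {X : Type*} [TopologicalSpace X] {n : WithBot ℕ∞}
    (h : ∀ x : X, ∃ (Y : Type) (_ : TopologicalSpace Y) (f : Y → X),
      IsOpenEmbedding f ∧ x ∈ Set.range f ∧ topologicalKrullDim Y ≤ n) :
    topologicalKrullDim X ≤ n := by
  unfold topologicalKrullDim
  rw [Order.krullDim_eq_iSup_coheight]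
  refine iSup_le fun Z => ?_
  obtain ⟨x, hx⟩ := Z.isIrreducible.nonempty
  obtain ⟨Y, _, f, hf, ⟨y, rfl⟩, hY⟩ := h x
  have h1 : IrreducibleCloseds.map f hf.continuous
      ((IrreducibleCloseds.orderIsoOfIsOpenEmbedding f hf).symm ⟨Z, ⟨y, hx⟩⟩) = Z :=
    congrArg Subtype.val
      ((IrreducibleCloseds.orderIsoOfIsOpenEmbedding f hf).apply_symm_apply ⟨Z, ⟨y, hx⟩⟩)
  rw [← h1, hf.coheight_map]
  exact (Order.coheight_le_krullDim _).trans hY

section Integral

variable {R S : Type*} [CommRing R] [CommRing S] [Algebra R S] [Algebra.IsIntegral R S]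

theorem ringDim_le_of_integral : ringKrullDim S ≤ ringKrullDim R :=
  Order.krullDim_le_of_strictMono
    (fun p : PrimeSpectrum S => PrimeSpectrum.comap (algebraMap R S) p)
    (fun _ _ h => Ideal.IsIntegral.comap_lt_comap h)

theorem ringDim_le_of_integral_injective (hinj : Function.Injective (algebraMap R S)) :
    ringKrullDim R ≤ ringKrullDim S := by
  refine iSup_le fun l => ?_
  obtain ⟨Q, -, hQ', hQ''⟩ := Ideal.exists_ideal_over_prime_of_isIntegral (S := S)
    (RelSeries.head l).asIdeal ⊥
    (by rw [← RingHom.ker_eq_comap_bot, (RingHom.injective_iff_ker_eq_bot _).1 hinj]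
        exact bot_le)
  have hlo : Q.LiesOver (RelSeries.head l).asIdeal := ⟨hQ''.symm⟩
  obtain ⟨L, hL, -, -⟩ := Ideal.exists_ltSeries_of_hasGoingUp l Q
  rw [← hL]
  exact le_iSup_of_le L le_rfl

end Integral

section Field

variable (k : Type*) [Field k]

theorem ringDim_mvPolynomial (m : ℕ) : ringKrullDim (MvPolynomial (Fin m) k) = m := by
  rw [MvPolynomial.ringKrullDim_of_isNoetherianRing, ringKrullDim_eq_zero_of_field]
  simp

variable {k}

/-- Noether normalization with the dimension. -/
theorem noether (B : Type*) [CommRing B] [Nontrivial B] [Algebra k B] [Algebra.FiniteType k B] :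
    ∃ (a : ℕ) (g : MvPolynomial (Fin a) k →ₐ[k] B), Function.Injective g ∧ g.Finite ∧
      ringKrullDim B = a := by
  obtain ⟨a, g, hinj, hfin⟩ := exists_finite_inj_algHom_of_fg k B
  refine ⟨a, g, hinj, hfin, ?_⟩
  let _ := g.toRingHom.toAlgebra
  have : Module.Finite (MvPolynomial (Fin a) k) B := hfin
  have : Algebra.IsIntegral (MvPolynomial (Fin a) k) B := Algebra.IsIntegral.of_finite _ _
  refine le_antisymm ?_ ?_
  · exact (ringDim_le_of_integral (R := MvPolynomial (Fin a) k) (S := B)).trans
      (ringDim_mvPolynomial k a).le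
  · exact (ringDim_mvPolynomial k a).ge.trans
      (ringDim_le_of_integral_injective (R := MvPolynomial (Fin a) k) (S := B) hinj)

theorem integralElem_transfer {R R' S S' : Type*} [CommRing R] [CommRing R'] [CommRing S]
    [CommRing S'] (g : R →+* S) (φ : R' →+* S') (ρ : R →+* R') (ι : S →+* S')
    (h : φ.comp ρ = ι.comp g) {x : S} (hx : g.IsIntegralElem x) : φ.IsIntegralElem (ι x) := by
  obtain ⟨p, hp, hx⟩ := hx
  refine ⟨p.map ρ, hp.map ρ, ?_⟩
  rw [Polynomial.eval₂_map, h, ← Polynomial.hom_eval₂, hx, map_zero]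

open TensorProduct in
theorem ringDim_tensor (A B : Type*) [CommRing A] [Algebra k A] [Algebra.FiniteType k A]
    [CommRing B] [Algebra k B] [Algebra.FiniteType k B] :
    ringKrullDim (A ⊗[k] B) ≤ ringKrullDim A + ringKrullDim B := by
  rcases subsingleton_or_nontrivial A with hA | hA
  · have : Subsingleton (A ⊗[k] B) := subsingleton_of_zero_eq_one (by
      rw [Algebra.TensorProduct.one_def, Subsingleton.elim (1 : A) 0, TensorProduct.zero_tmul])
    rw [ringKrullDim_eq_bot_of_subsingleton]
    exact bot_le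
  rcases subsingleton_or_nontrivial B with hB | hB
  · have : Subsingleton (A ⊗[k] B) := subsingleton_of_zero_eq_one (by
      rw [Algebra.TensorProduct.one_def, Subsingleton.elim (1 : B) 0, TensorProduct.tmul_zero])
    rw [ringKrullDim_eq_bot_of_subsingleton]
    exact bot_le
  obtain ⟨a, g, -, hg, ha⟩ := noether (k := k) A
  obtain ⟨b, h, -, hh, hb⟩ := noether (k := k) B
  have hgi : ∀ x, g.toRingHom.IsIntegralElem x := hg.to_isIntegral
  have hhi : ∀ x, h.toRingHom.IsIntegralElem x := hh.to_isIntegral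
  let φ : MvPolynomial (Fin a ⊕ Fin b) k →ₐ[k] A ⊗[k] B :=
    MvPolynomial.aeval (Sum.elim (fun i => (g (MvPolynomial.X i)) ⊗ₜ[k] (1 : B))
      (fun j => (1 : A) ⊗ₜ[k] (h (MvPolynomial.X j))))
  have h1 : φ.comp (MvPolynomial.rename Sum.inl) =
      (Algebra.TensorProduct.includeLeft : A →ₐ[k] A ⊗[k] B).comp g := by
    ext i; simp [φ]
  have h2 : φ.comp (MvPolynomial.rename Sum.inr) =
      (Algebra.TensorProduct.includeRight : B →ₐ[k] A ⊗[k] B).comp h := by
    ext i; simp [φ]
  have hφ : ∀ x, φ.toRingHom.IsIntegralElem x := by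
    intro x
    induction x using TensorProduct.induction_on with
    | zero => exact RingHom.isIntegralElem_zero _
    | tmul x y =>
      have hx := integralElem_transfer g.toRingHom φ.toRingHom
        (MvPolynomial.rename Sum.inl : MvPolynomial (Fin a) k →ₐ[k] _).toRingHom
        (Algebra.TensorProduct.includeLeft : A →ₐ[k] A ⊗[k] B).toRingHom
        (congrArg AlgHom.toRingHom h1) (hgi x)
      have hy := integralElem_transfer h.toRingHom φ.toRingHom
        (MvPolynomial.rename Sum.inr : MvPolynomial (Fin b) k →ₐ[k] _).toRingHom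
        (Algebra.TensorProduct.includeRight : B →ₐ[k] A ⊗[k] B).toRingHom
        (congrArg AlgHom.toRingHom h2) (hhi y)
      have := RingHom.IsIntegralElem.mul _ hx hy
      simpa using this
    | add x y hx hy => exact RingHom.IsIntegralElem.add _ hx hy
  let _ := φ.toRingHom.toAlgebra
  have : Algebra.IsIntegral (MvPolynomial (Fin a ⊕ Fin b) k) (A ⊗[k] B) := ⟨hφ⟩
  refine (ringDim_le_of_integral (R := MvPolynomial (Fin a ⊕ Fin b) k)
    (S := A ⊗[k] B)).trans ?_
  rw [MvPolynomial.ringKrullDim_of_isNoetherianRing, ringKrullDim_eq_zero_of_field, ha, hb]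
  simp

end Field

end Pool.Agent.Lib.MP_6cd1fc_ag
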