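import Mathlib

/-!
# The discriminant and elementary symmetric polynomials (algebra)
-/

open MvPolynomial

namespace Pool.Agent.Lib.MP_6cd1fc_ag

/-- The product of all differences of distinct variables. -/
noncomputable def rootDisc (R : Type) [CommRing R] (m : ℕ) : MvPolynomial (Fin m) R :=
  ∏ p ∈ (Finset.univ : Finset (Fin m × Fin m)).filter (fun p => p.1 ≠ p.2), (X p.1 - X p.2)

theorem rename_rootDisc (R : Type) [CommRing R] (m : ℕ) (σ : Equiv.Perm (Fin m)) :
    rename σ (rootDisc R m) = rootDisc R m := by
  unfold rootDisc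
  rw [map_prod]
  refine Finset.prod_bij' (fun p _ => (σ p.1, σ p.2)) (fun p _ => (σ.symm p.1, σ.symm p.2))
    ?_ ?_ ?_ ?_ ?_
  · intro p hp
    simpa using hp
  · intro p hp
    simpa using hp
  · intro p _
    simp
  · intro p _
    simp
  · intro p _
    simp

theorem rootDisc_ne_zero (k : Type) [Field k] (m : ℕ) : rootDisc k m ≠ 0 := by
  unfold rootDisc
  rw [Finset.prod_ne_zero_iff]
  intro p hp h
  rw [sub_eq_zero] at h
  exact (Finset.mem_filter.1 hp).2 (X_injective h)

theorem aeval_rootDisc_ne_zero_iff {k K : Type} [Field k] [Field K] [Algebra k K] {m : ℕ}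
    (c : Fin m → K) : aeval c (rootDisc k m) ≠ 0 ↔ Function.Injective c := by
  unfold rootDisc
  rw [map_prod, Finset.prod_ne_zero_iff]
  constructor
  · intro h i j hij
    by_contra hne
    refine h (i, j) (by simpa using hne) ?_
    simp [hij]
  · intro h p hp h0
    rw [map_sub, aeval_X, aeval_X, sub_eq_zero] at h0
    exact (Finset.mem_filter.1 hp).2 (h h0)

open Polynomial in
theorem exists_esymm {K : Type} [Field K] [IsAlgClosed K] {m : ℕ} (s : Fin m → K) :
    ∃ c : Fin m → K, ∀ i : Fin m, ((Finset.univ.val : Multiset (Fin m)).map c).esymm (i + 1) = s i := by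
  let q : K[X] := ∑ i : Fin m, Polynomial.C ((-1) ^ ((i : ℕ) + 1) * s i) * Polynomial.X ^ (m - 1 - i)
  have hq : q.degree < m := by
    rw [Polynomial.degree_lt_iff_coeff_zero]
    intro j hj
    rw [Polynomial.finsetSum_coeff]
    refine Finset.sum_eq_zero fun i _ => ?_
    rw [Polynomial.coeff_C_mul_X_pow, if_neg]
    have := i.2
    omega
  let p : K[X] := Polynomial.X ^ m + q
  have hp : p.Monic := Polynomial.monic_X_pow_add hq
  have hdeg : p.natDegree = m := by
    refine Polynomial.natDegree_eq_of_degree_eq_some ?_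
    rw [Polynomial.degree_add_eq_left_of_degree_lt]
    · exact Polynomial.degree_X_pow m
    · rwa [Polynomial.degree_X_pow]
  have hsp : p.Splits := IsAlgClosed.splits p
  have hcard : p.roots.card = m := by
    rw [← hdeg]; exact hsp.natDegree_eq_card_roots.symm
  have hprod : p = (p.roots.map fun a => Polynomial.X - Polynomial.C a).prod :=
    hsp.eq_prod_roots_of_monic hp
  obtain ⟨l, hl⟩ := Quotient.exists_rep p.roots
  have hl' : (l : Multiset K) = p.roots := hl
  have hlen : l.length = m := by rw [← hcard, ← hl']; rfl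
  subst hlen
  refine ⟨l.get, fun i => ?_⟩
  have h1 : ((Finset.univ.val : Multiset (Fin l.length)).map l.get) = p.roots := by
    rw [Fin.univ_val_map, List.ofFn_get, hl']
  rw [h1]
  have hk : l.length - 1 - (i : ℕ) ≤ p.roots.card := by rw [hcard]; omega
  have h2 := Multiset.prod_X_sub_C_coeff p.roots hk
  rw [← hprod, hcard] at h2
  have hi := i.2
  have h3 : l.length - (l.length - 1 - (i : ℕ)) = i + 1 := by omega
  rw [h3] at h2
  have h4 : p.coeff (l.length - 1 - (i : ℕ)) = (-1) ^ ((i : ℕ) + 1) * s i := by
    rw [Polynomial.coeff_add, Polynomial.coeff_X_pow, if_neg (by omega), zero_add,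
      Polynomial.finsetSum_coeff, Finset.sum_eq_single i]
    · rw [Polynomial.coeff_C_mul_X_pow, if_pos rfl]
    · intro j _ hj
      rw [Polynomial.coeff_C_mul_X_pow, if_neg]
      intro h
      exact hj (Fin.ext (by have := j.2; omega))
    · intro h
      exact absurd (Finset.mem_univ i) h
  rw [h4] at h2
  exact (mul_left_cancel₀ (pow_ne_zero _ (neg_ne_zero.2 one_ne_zero)) h2).symm

/-- Schwartz–Zippel: a nonzero polynomial is nonzero at most points. -/
theorem card_ne_zero_ge {k : Type} [Field k] {m : ℕ} (f : MvPolynomial (Fin (m + 1)) k)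
    (hf : f ≠ 0) (K : Type) [Field K] [Algebra k K] [Finite K] :
    (Nat.card K : ℝ) ^ (m + 1) - f.totalDegree * (Nat.card K : ℝ) ^ m ≤
      Nat.card {c : Fin (m + 1) → K // aeval c f ≠ 0} := by
  classical
  have : Fintype K := Fintype.ofFinite K
  let g : MvPolynomial (Fin (m + 1)) K := MvPolynomial.map (algebraMap k K) f
  have hg : g ≠ 0 := by
    intro h
    refine hf (MvPolynomial.map_injective _ (algebraMap k K).injective ?_)
    rw [map_zero]
    exact h
  have hgd : g.totalDegree ≤ f.totalDegree := Finset.sup_mono (MvPolynomial.support_map_subset _ _)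
  have hev : ∀ c : Fin (m + 1) → K, eval c g = aeval c f := fun c => by
    rw [MvPolynomial.eval_map, MvPolynomial.aeval_def]
  have hsz := MvPolynomial.schwartz_zippel_totalDegree hg (Finset.univ : Finset K)
  rw [Fintype.piFinset_univ, Finset.card_univ] at hsz
  have hq : (0 : ℝ) < Fintype.card K := by exact_mod_cast Fintype.card_pos
  have hsz' : ((Finset.univ.filter fun c : Fin (m + 1) → K => eval c g = 0).card : ℝ) /
      (Fintype.card K : ℝ) ^ (m + 1) ≤ g.totalDegree / Fintype.card K := by
    have h := (NNRat.cast_le (K := ℝ)).2 hsz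
    push_cast at h
    exact h
  rw [div_le_div_iff₀ (by positivity) hq, pow_succ (Fintype.card K : ℝ) m, ← mul_assoc] at hsz'
  have hsz2 := le_of_mul_le_mul_right hsz' hq
  have hsplit : Nat.card {c : Fin (m + 1) → K // aeval c f ≠ 0} +
      (Finset.univ.filter fun c : Fin (m + 1) → K => eval c g = 0).card =
      (Fintype.card K) ^ (m + 1) := by
    have h1 : Nat.card {c : Fin (m + 1) → K // aeval c f ≠ 0} =
        (Finset.univ.filter fun c : Fin (m + 1) → K => ¬ eval c g = 0).card := by
      rw [Nat.card_eq_fintype_card, Fintype.card_subtype]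
      congr 1
      ext c
      simp [hev]
    rw [h1, add_comm, Finset.card_filter_add_card_filter_not, Finset.card_univ,
      Fintype.card_fun, Fintype.card_fin]
  rw [Nat.card_eq_fintype_card]
  have hsplit' : (Nat.card {c : Fin (m + 1) → K // aeval c f ≠ 0} : ℝ) +
      ((Finset.univ.filter fun c : Fin (m + 1) → K => eval c g = 0).card : ℝ) =
      (Fintype.card K : ℝ) ^ (m + 1) := by exact_mod_cast hsplit
  have hd : (g.totalDegree : ℝ) ≤ f.totalDegree := by exact_mod_cast hgd
  have hle : (g.totalDegree : ℝ) * (Fintype.card K : ℝ) ^ m ≤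
      f.totalDegree * (Fintype.card K : ℝ) ^ m :=
    mul_le_mul_of_nonneg_right hd (by positivity)
  linarith

end Pool.Agent.Lib.MP_6cd1fc_ag
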