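import Pool.Agent.Lib.MP_6cd1fc_ag.SymLine
import Pool.Agent.Lib.MP_6cd1fc_ag.DiscAlg

/-!
# The discriminant locus in the symmetric power of the affine line
-/

open AlgebraicGeometry CategoryTheory Limits TopologicalSpace Topology Filter

namespace Pool.Agent.Lib.MP_6cd1fc_ag

section

variable (k : Type) [Field k] (m : ℕ)

/-- The discriminant, as a polynomial in the elementary symmetric functions. -/
noncomputable def discPoly : MvPolynomial (Fin m) k :=
  Classical.choose (exists_esymmHom k m (p := rootDisc k m) (rename_rootDisc k m))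

theorem esymmHom_discPoly : esymmHom k m (discPoly k m) = rootDisc k m :=
  Classical.choose_spec (exists_esymmHom k m (p := rootDisc k m) (rename_rootDisc k m))

theorem discPoly_ne_zero : discPoly k m ≠ 0 := by
  intro h
  apply rootDisc_ne_zero k m
  rw [← esymmHom_discPoly, h, map_zero]

/-- The open subvariety of affine space where the discriminant does not vanish. -/
noncomputable def discVar : Variety k := affineVariety k (Localization.Away (discPoly k m))

/-- The inclusion of the nonvanishing locus of the discriminant. -/
noncomputable def discι : (discVar k m).obj ⟶ (affineSpace k m).obj :=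
  specMap k (IsScalarTower.toAlgHom k (MvPolynomial (Fin m) k)
    (Localization.Away (discPoly k m)))

theorem discι_open : IsOpenImmersion (discι k m).left := by
  change IsOpenImmersion (Spec.map (CommRingCat.ofHom (algebraMap (MvPolynomial (Fin m) k)
    (Localization.Away (discPoly k m)))))
  infer_instance

end

variable {k : Type} [Field k] {m : ℕ}

theorem discι_lift_iff {K : Type} [Field K] [Algebra k K] (φ : MvPolynomial (Fin m) k →ₐ[k] K) :
    (∃ z : specOver k K ⟶ (discVar k m).obj,
      z ≫ discι k m = (specMap k φ : specOver k K ⟶ (affineSpace k m).obj)) ↔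
      φ (discPoly k m) ≠ 0 := by
  constructor
  · rintro ⟨z, hz⟩
    obtain ⟨ψ, rfl⟩ := (specMap_bijective k (B := K)
      (C := Localization.Away (discPoly k m))).2 z
    have h1 : specMap k (ψ.comp (IsScalarTower.toAlgHom k (MvPolynomial (Fin m) k)
        (Localization.Away (discPoly k m)))) = specMap k φ := by
      rw [← specMap_comp]
      exact hz
    have h2 := (specMap_bijective k).1 h1
    rw [← h2]
    have h3 : IsUnit (algebraMap (MvPolynomial (Fin m) k) (Localization.Away (discPoly k m))
        (discPoly k m)) := IsLocalization.Away.algebraMap_isUnit _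
    exact (h3.map ψ).ne_zero
  · intro h
    have hu : ∀ y : Submonoid.powers (discPoly k m), IsUnit (φ y) := by
      rintro ⟨_, n, rfl⟩
      rw [map_pow]
      exact (Ne.isUnit h).pow n
    refine ⟨specMap k (IsLocalization.liftAlgHom (M := Submonoid.powers (discPoly k m)) hu), ?_⟩
    refine (specMap_comp k _ _).trans ?_
    congr 1
    ext i
    simp

theorem numPts_discVar_ge (m : ℕ) : ∃ D : ℝ, ∀ (K : Type) [Field K] [Algebra k K] [Finite K],
    (Nat.card K : ℝ) ^ (m + 1) - D * (Nat.card K : ℝ) ^ m ≤ numPts K (discVar k (m + 1)) := by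
  refine ⟨(discPoly k (m + 1)).totalDegree, fun K _ _ _ => ?_⟩
  refine (card_ne_zero_ge (discPoly k (m + 1)) (discPoly_ne_zero k (m + 1)) K).trans ?_
  have h1 : ∀ c : {c : Fin (m + 1) → K // MvPolynomial.aeval c (discPoly k (m + 1)) ≠ 0},
      ∃ z : Pts (discVar k (m + 1)).obj K, z ≫ discι k (m + 1) =
        (specMap k (MvPolynomial.aeval c.1) : specOver k K ⟶ (affineSpace k (m + 1)).obj) :=
    fun c => (discι_lift_iff _).2 c.2
  choose z hz using h1
  have hinj : Function.Injective z := by
    intro c c' h
    have h2 := hz c
    rw [h, hz c'] at h2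
    have h3 := (specMap_bijective k (B := K) (C := MvPolynomial (Fin (m + 1)) k)).1 h2
    apply Subtype.ext
    funext i
    have h4 := congrArg (fun f => f (MvPolynomial.X i)) h3
    simpa using h4.symm
  have hfin := finite_points K (discVar k (m + 1))
  exact_mod_cast Nat.card_le_card_of_injective z hinj

/-- Over an algebraically closed field, every point of the symmetric power lifts. -/
theorem exists_lift {K : Type} [Field K] [Algebra k K] [IsAlgClosed K]
    (φ : MvPolynomial (Fin m) k →ₐ[k] K) :
    ∃ ψ : MvPolynomial (Fin m) k →ₐ[k] K, ψ.comp (esymmHom k m) = φ := by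
  obtain ⟨c, hc⟩ := exists_esymm (fun i => φ (MvPolynomial.X i))
  refine ⟨MvPolynomial.aeval c, ?_⟩
  ext i
  rw [AlgHom.comp_apply, esymmHom, MvPolynomial.aeval_X,
    MvPolynomial.aeval_esymm_eq_multiset_esymm, hc]

/-- The nonvanishing locus of the discriminant consists of the reduced cycles. -/
theorem disc_iff_injective {K : Type} [Field K] [Algebra k K]
    (ψ : MvPolynomial (Fin m) k →ₐ[k] K) :
    (ψ.comp (esymmHom k m)) (discPoly k m) ≠ 0 ↔
      Function.Injective fun a => ψ (MvPolynomial.X a) := by
  rw [AlgHom.comp_apply, esymmHom_discPoly, ← aeval_rootDisc_ne_zero_iff (k := k)]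
  have : (MvPolynomial.aeval fun a => ψ (MvPolynomial.X a)) = ψ := by
    ext i
    simp
  rw [this]

end Pool.Agent.Lib.MP_6cd1fc_ag
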