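import Pool.Agent.Lib.MP_6cd1fc_ag.Statement
import Pool.Agent.Lib.MP_6cd1fc_ag.AffCoord

/-!
# The point, the empty variety and their symmetric powers
-/

open AlgebraicGeometry CategoryTheory Limits TopologicalSpace Topology Filter

namespace Pool.Agent.Lib.MP_6cd1fc_ag

variable {k : Type} [Field k]

/-- `Y` is terminal among schemes over `k`. -/
def IsTerm (Y : Over (Spec (CommRingCat.of k))) : Prop :=
  ∀ T : Over (Spec (CommRingCat.of k)), Nonempty (T ⟶ Y) ∧ ∀ f g : T ⟶ Y, f = g

theorem isTerm_of_isIso (Y : Over (Spec (CommRingCat.of k))) (h : IsIso Y.hom) : IsTerm Y := by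
  intro T
  refine ⟨⟨Over.homMk (T.hom ≫ inv Y.hom) (by simp)⟩, fun f g => ?_⟩
  ext1
  rw [← cancel_mono Y.hom, Over.w, Over.w]

theorem isTerm_pt : IsTerm (ptVar k).obj := isTerm_of_isIso _ inferInstance

/-- The empty variety. -/
noncomputable def emptyVar (k : Type) [Field k] : Variety k := affineVariety k PUnit

instance isEmpty_emptyVar : IsEmpty (emptyVar k).obj.left :=
  inferInstanceAs (IsEmpty (PrimeSpectrum PUnit))

/-- Morphisms out of an empty scheme are unique. -/
theorem hom_ext_of_isEmpty {T Y : Over (Spec (CommRingCat.of k))} (h : IsEmpty T.left)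
    (f g : T ⟶ Y) : f = g := by
  ext1
  have h1 : IsInitial T.left := isInitialOfIsEmpty
  exact h1.hom_ext _ _

theorem nonempty_hom_of_isEmpty {T : Over (Spec (CommRingCat.of k))} (h : IsEmpty T.left)
    (Y : Over (Spec (CommRingCat.of k))) : Nonempty (T ⟶ Y) := by
  have h1 : IsInitial T.left := isInitialOfIsEmpty
  exact ⟨Over.homMk (h1.to Y.left) (h1.hom_ext _ _)⟩

theorem isEmpty_of_hom {T Y : Over (Spec (CommRingCat.of k))} (h : IsEmpty Y.left)
    (f : T ⟶ Y) : IsEmpty T.left := ⟨fun x => h.false (f.left x)⟩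

theorem cls_empty : cls (emptyVar k) = 0 := by
  have h := cls_scissor (emptyVar k) (emptyVar k) (emptyVar k) (𝟙 _) (𝟙 _)
    (by rw [Over.id_left]; infer_instance) (by rw [Over.id_left]; infer_instance)
    (by
      ext x
      exact (isEmpty_emptyVar (k := k)).elim x)
  simpa using h

theorem dim_empty : (emptyVar k).dim = ⊥ := by
  change topologicalKrullDim (PrimeSpectrum PUnit) = _
  rw [PrimeSpectrum.topologicalKrullDim_eq_ringKrullDim, ringKrullDim_eq_bot_of_subsingleton]

theorem dim_affineSpace (m : ℕ) : (affineSpace k m).dim = ((m : ℕ∞) : WithBot ℕ∞) := by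
  change topologicalKrullDim (PrimeSpectrum (MvPolynomial (Fin m) k)) = _
  rw [PrimeSpectrum.topologicalKrullDim_eq_ringKrullDim, ringDim_mvPolynomial]
  rfl

instance isIso_affineSpace_zero : IsIso (affineSpace k 0).obj.hom := by
  change IsIso (Spec.map (CommRingCat.ofHom (algebraMap k (MvPolynomial (Fin 0) k))))
  have : IsIso (CommRingCat.ofHom (algebraMap k (MvPolynomial (Fin 0) k))) := by
    let e := (MvPolynomial.isEmptyAlgEquiv k (Fin 0)).symm
    have h1 : algebraMap k (MvPolynomial (Fin 0) k) = (e : k →+* MvPolynomial (Fin 0) k) :=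
      RingHom.ext fun x => (e.commutes x).symm
    rw [h1]
    exact (RingEquiv.toCommRingCatIso e.toRingEquiv).isIso_hom
  infer_instance

theorem cls_affineSpace (m : ℕ) : cls (affineSpace k m) = lef k ^ m := by
  induction m with
  | zero =>
    rw [pow_zero]
    exact cls_unit _ inferInstance
  | succ m ih =>
    rw [pow_succ, ← ih]
    exact cls_prod (affineSpace k m) (affineSpace k 1) (affineSpace k (m + 1))
      (specMap k (MvPolynomial.rename Fin.castSucc))
      (specMap k (MvPolynomial.rename fun _ => Fin.last m)) fun _ f g => aff_isProd_binary m f g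

/-- A symmetric power on which the symmetric group acts trivially. -/
noncomputable def SymPower.ofTrivial {U : Variety k} {m : ℕ} (Q : Variety k)
    (proj : Fin m → (Q.obj ⟶ U.obj))
    (isProd : ∀ (T : Over (Spec (CommRingCat.of k))) (f : Fin m → (T ⟶ U.obj)),
      ∃! g : T ⟶ Q.obj, ∀ a, g ≫ proj a = f a)
    (hproj : ∀ a b, proj a = proj b) : SymPower U m where
  P := Q.obj
  proj := proj
  isProd := isProd
  S := Q
  π := 𝟙 _
  affine := by rw [Over.id_left]; infer_instance
  invariant := by
    rintro g ⟨σ, hg⟩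
    rw [Category.comp_id]
    obtain ⟨u, -, hu⟩ := isProd Q.obj proj
    rw [hu g fun a => (hg a).trans (hproj _ _), hu (𝟙 _) fun a => Category.id_comp _]
  quotient := by
    intro s
    obtain ⟨V, hV, hsV, -⟩ := exists_isAffineOpen_mem_and_subset (U := ⊤) (x := s) trivial
    have hid : ∀ x : Fn Q.obj.left V, pull (𝟙 Q.obj : Q.obj ⟶ Q.obj).left V x = x :=
      fun x => rfl
    refine ⟨V, hsV, hV, ?_, ?_⟩
    · intro x y h
      rwa [hid, hid] at h
    · intro f _
      exact ⟨f, hid f⟩

/-- The symmetric powers of the point. -/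
noncomputable def symPt (m : ℕ) : SymPower (ptVar k) m :=
  SymPower.ofTrivial (ptVar k) (fun _ => 𝟙 _) (fun T f => by
    obtain ⟨⟨g⟩, hg⟩ := isTerm_pt T
    exact ⟨g, fun a => hg _ _, fun g' _ => hg _ _⟩) fun _ _ => rfl

/-- The `0`-th symmetric power of the empty variety is the point. -/
noncomputable def symEmptyZero : SymPower (emptyVar k) 0 :=
  SymPower.ofTrivial (ptVar k) (fun a => a.elim0) (fun T f => by
    obtain ⟨⟨g⟩, hg⟩ := isTerm_pt T
    exact ⟨g, fun a => a.elim0, fun g' _ => hg _ _⟩) fun a => a.elim0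

/-- The positive symmetric powers of the empty variety are empty. -/
noncomputable def symEmptySucc (m : ℕ) : SymPower (emptyVar k) (m + 1) :=
  SymPower.ofTrivial (emptyVar k) (fun _ => 𝟙 _) (fun T f => by
    have hT : IsEmpty T.left := isEmpty_of_hom isEmpty_emptyVar (f 0)
    exact ⟨f 0, fun a => hom_ext_of_isEmpty hT _ _, fun g' _ => hom_ext_of_isEmpty hT _ _⟩)
    fun _ _ => rfl

/-- The symmetric powers of the empty variety. -/
noncomputable def symEmpty : ∀ m : ℕ, SymPower (emptyVar k) m
  | 0 => symEmptyZero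
  | m + 1 => symEmptySucc m

theorem symEmpty_zero_S (m : ℕ) (hm : m = 0) : IsTerm (symEmpty (k := k) m).S.obj := by
  subst hm
  exact isTerm_pt

theorem symEmpty_succ_S (m : ℕ) (hm : m ≠ 0) : IsEmpty (symEmpty (k := k) m).S.obj.left := by
  obtain ⟨m, rfl⟩ := Nat.exists_eq_succ_of_ne_zero hm
  exact isEmpty_emptyVar

end Pool.Agent.Lib.MP_6cd1fc_ag
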