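import Pool.Agent.Lib.MP_6cd1fc_ag.DiscLocus

/-!
# The graded space `(point, ∅, 𝔸¹, ∅, ∅, ...)` and its spaces of cycles
-/

open AlgebraicGeometry CategoryTheory Limits TopologicalSpace Topology Filter

namespace Pool.Agent.Lib.MP_6cd1fc_ag

variable (k : Type) [Field k]

/-- The members of the graded space. -/
noncomputable def exU : ℕ → Variety k
  | 0 => ptVar k
  | 1 => emptyVar k
  | 2 => affineSpace k 1
  | _ + 3 => emptyVar k

theorem geomIrred_cancel {X Y Z : Scheme.{0}} (f : X ⟶ Y) (g : Y ⟶ Z) (hf : IsIso f) :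
    GeometricallyIrreducible (f ≫ g) ↔ GeometricallyIrreducible g := by
  rw [geometricallyIrreducible_iff, geometricallyIrreducible_iff]
  exact MorphismProperty.cancel_left_of_respectsIso
    (P := geometrically (fun X : Scheme => IrreducibleSpace X)) f g

theorem geomIrred_affineSpace (m : ℕ) : GeometricallyIrreducible (affineSpace k m).obj.hom := by
  have h1 : GeometricallyIrreducible ((AffineSpace.SpecIso (Fin m) (CommRingCat.of k)).inv ≫
      (𝔸(Fin m; Spec (CommRingCat.of k)) ↘ Spec (CommRingCat.of k))) := by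
    rw [geomIrred_cancel _ _ inferInstance]
    infer_instance
  rw [AffineSpace.SpecIso_inv_over] at h1
  exact h1

theorem geomIrred_pt : GeometricallyIrreducible (ptVar k).obj.hom := by
  have h0 := geomIrred_affineSpace k 0
  have h1 : GeometricallyIrreducible (𝟙 (Spec (CommRingCat.of k))) :=
    (geomIrred_cancel (affineSpace k 0).obj.hom (𝟙 _) inferInstance).1
      (by rw [Category.comp_id]; exact h0)
  have h3 := (geomIrred_cancel (ptVar k).obj.hom (𝟙 _) inferInstance).2 h1
  rwa [Category.comp_id] at h3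

/-- The graded space `(point, ∅, 𝔸¹, ∅, ∅, ...)`. -/
noncomputable def exG : GradedSpace k where
  U := exU k
  irreducible := by
    intro i h
    match i, h with
    | 0, _ => exact geomIrred_pt k
    | 1, h => exact absurd h (not_nonempty_iff.2 (isEmpty_emptyVar (k := k)))
    | 2, _ => exact geomIrred_affineSpace k 1
    | i + 3, h => exact absurd h (not_nonempty_iff.2 (isEmpty_emptyVar (k := k)))
  positive := ⟨2, by
    change _ ≤ (affineSpace k 1).dim
    rw [dim_affineSpace]
    exact le_rfl⟩

/-- The symmetric powers. -/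
noncomputable def exSym : ∀ i m : ℕ, SymPower (exU k i) m
  | 0, m => symPt m
  | 1, m => symEmpty m
  | 2, m => symLine m
  | _ + 3, m => symEmpty m

/-- All multiplicities are zero except those of `1` and `3`. -/
def Supp {d : ℕ} (l : Nat.Partition d) : Prop :=
  ∀ i : ℕ, i ≠ 0 → i ≠ 2 → l.parts.count (i + 1) = 0

theorem exSym_isTerm (i m : ℕ) (hi : i ≠ 2) (hm : i ≠ 0 → m = 0) :
    IsTerm (exSym k i m).S.obj := by
  match i, hi, hm with
  | 0, _, _ => exact isTerm_pt
  | 1, _, hm => exact symEmpty_zero_S m (hm (by omega))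
  | i + 3, _, hm => exact symEmpty_zero_S m (hm (by omega))

theorem exSym_isTermP (i m : ℕ) (hi : i ≠ 2) (hm : i ≠ 0 → m = 0) :
    IsTerm (exSym k i m).P := by
  match i, hi, hm with
  | 0, _, _ => exact isTerm_pt
  | 1, _, hm => rw [hm (by omega)]; exact isTerm_pt
  | i + 3, _, hm => rw [hm (by omega)]; exact isTerm_pt

theorem exSym_isEmpty (i m : ℕ) (hi : i ≠ 2) (h0 : i ≠ 0) (hm : m ≠ 0) :
    IsEmpty (exSym k i m).S.obj.left := by
  match i, hi, h0 with
  | 1, _, _ => exact symEmpty_succ_S m hm
  | i + 3, _, _ => exact symEmpty_succ_S m hm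

theorem exists_comp (d : ℕ) (l : Nat.Partition d) :
    ∃ (X : Variety k) (proj : ∀ i, X.obj ⟶ (exSym k i (l.parts.count (i + 1))).S.obj),
      (∀ (T : Over (Spec (CommRingCat.of k)))
        (f : ∀ i : ℕ, T ⟶ (exSym k i (l.parts.count (i + 1))).S.obj),
        ∃! g : T ⟶ X.obj, ∀ i, g ≫ proj i = f i) ∧
      (Supp l → cls X = lef k ^ (l.parts.count 3) ∧
        X.dim = ((l.parts.count 3 : ℕ∞) : WithBot ℕ∞) ∧ IsIso (proj 2)) ∧
      (¬ Supp l → cls X = 0 ∧ X.dim = ⊥ ∧ IsEmpty X.obj.left) := by
  classical
  by_cases hl : Supp l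
  · have hterm : ∀ i, i ≠ 2 → IsTerm (exSym k i (l.parts.count (i + 1))).S.obj :=
      fun i hi => exSym_isTerm k i _ hi fun h0 => hl i h0 hi
    have hbase : ∀ i, Nonempty ((exSym k 2 (l.parts.count (2 + 1))).S.obj ⟶
        (exSym k i (l.parts.count (i + 1))).S.obj) := by
      intro i
      by_cases hi : i = 2
      · subst hi; exact ⟨𝟙 _⟩
      · exact (hterm i hi _).1
    refine ⟨(exSym k 2 (l.parts.count (2 + 1))).S,
      Function.update (fun i => (hbase i).some) 2 (𝟙 _), ?_, ?_, fun h => absurd hl h⟩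
    · intro T f
      refine ⟨f 2, fun i => ?_, fun g hg => ?_⟩
      · by_cases hi : i = 2
        · subst hi
          rw [Function.update_self, Category.comp_id]
        · exact (hterm i hi T).2 _ _
      · have := hg 2
        rwa [Function.update_self, Category.comp_id] at this
    · intro _
      refine ⟨cls_affineSpace _, dim_affineSpace _, ?_⟩
      rw [Function.update_self]
      infer_instance
  · have hl' := hl
    unfold Supp at hl'
    push Not at hl'
    obtain ⟨i, h0, h2, hi⟩ := hl'
    have hS := exSym_isEmpty k i _ h2 h0 hi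
    refine ⟨emptyVar k, fun i => (nonempty_hom_of_isEmpty isEmpty_emptyVar _).some, ?_,
      fun h => absurd h hl, fun _ => ⟨cls_empty, dim_empty, isEmpty_emptyVar⟩⟩
    intro T f
    have hT : IsEmpty T.left := isEmpty_of_hom hS (f i)
    exact ⟨(nonempty_hom_of_isEmpty hT _).some, fun i => hom_ext_of_isEmpty hT _ _,
      fun g _ => hom_ext_of_isEmpty hT _ _⟩

/-- The spaces of cycles. -/
noncomputable def exC : CycleSpaces (exG k) where
  sym := exSym k
  comp d l := Classical.choose (exists_comp k d l)
  proj d l := Classical.choose (Classical.choose_spec (exists_comp k d l))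
  isProd d l := (Classical.choose_spec (Classical.choose_spec (exists_comp k d l))).1

variable {k}

theorem exC_supp {d : ℕ} {l : Nat.Partition d} (hl : Supp l) :
    cls ((exC k).comp d l) = lef k ^ (l.parts.count 3) ∧
      ((exC k).comp d l).dim = ((l.parts.count 3 : ℕ∞) : WithBot ℕ∞) ∧
      IsIso ((exC k).proj d l 2) :=
  (Classical.choose_spec (Classical.choose_spec (exists_comp k d l))).2.1 hl

theorem exC_not_supp {d : ℕ} {l : Nat.Partition d} (hl : ¬ Supp l) :
    cls ((exC k).comp d l) = 0 ∧ ((exC k).comp d l).dim = ⊥ ∧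
      IsEmpty ((exC k).comp d l).obj.left :=
  (Classical.choose_spec (Classical.choose_spec (exists_comp k d l))).2.2 hl

end Pool.Agent.Lib.MP_6cd1fc_ag
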