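import Pool.Agent.Lib.MP_6cd1fc_ag.ExCycles

/-!
# The classes, dimensions and generating series of the spaces of cycles
-/

open AlgebraicGeometry CategoryTheory Limits TopologicalSpace Topology Filter

namespace Pool.Agent.Lib.MP_6cd1fc_ag

section Partitions

/-- The partition of `d` with `j` parts equal to `3` and the others equal to `1`. -/
def exPart (d j : ℕ) (h : 3 * j ≤ d) : Nat.Partition d where
  parts := Multiset.replicate j 3 + Multiset.replicate (d - 3 * j) 1
  parts_pos := by
    intro i hi
    rcases Multiset.mem_add.1 hi with h | h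
    · rw [Multiset.eq_of_mem_replicate h]; norm_num
    · rw [Multiset.eq_of_mem_replicate h]; norm_num
  parts_sum := by
    simp only [Multiset.sum_add, Multiset.sum_replicate, smul_eq_mul]
    omega

theorem exPart_count_three (d j : ℕ) (h : 3 * j ≤ d) : (exPart d j h).parts.count 3 = j := by
  simp [exPart, Multiset.count_replicate]

theorem exPart_count_one (d j : ℕ) (h : 3 * j ≤ d) :
    (exPart d j h).parts.count 1 = d - 3 * j := by
  simp [exPart, Multiset.count_replicate]

theorem exPart_supp (d j : ℕ) (h : 3 * j ≤ d) : Supp (exPart d j h) := by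
  intro i h0 h2
  simp only [exPart, Multiset.count_add, Multiset.count_replicate]
  rw [if_neg (by omega), if_neg (by omega)]

theorem supp_parts {d : ℕ} {l : Nat.Partition d} (hl : Supp l) :
    l.parts = Multiset.replicate (l.parts.count 1) 1 + Multiset.replicate (l.parts.count 3) 3 := by
  ext a
  rw [Multiset.count_add, Multiset.count_replicate, Multiset.count_replicate]
  by_cases h0 : a = 0
  · subst h0
    rw [if_neg (by omega), if_neg (by omega)]
    exact Multiset.count_eq_zero.2 fun h => absurd (l.parts_pos h) (lt_irrefl _)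
  · obtain ⟨i, rfl⟩ := Nat.exists_eq_succ_of_ne_zero h0
    by_cases h1 : i = 0
    · subst h1
      simp
    · by_cases h2 : i = 2
      · subst h2
        simp
      · rw [if_neg (by omega), if_neg (by omega)]
        exact hl i h1 h2

theorem supp_sum {d : ℕ} {l : Nat.Partition d} (hl : Supp l) :
    l.parts.count 1 + 3 * l.parts.count 3 = d := by
  have h := l.parts_sum
  rw [supp_parts hl] at h
  simp only [Multiset.sum_add, Multiset.sum_replicate, smul_eq_mul] at h
  omega

theorem sum_supp {M : Type*} [AddCommMonoid M] (d : ℕ) (F : Nat.Partition d → M) (f : ℕ → M)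
    (h1 : ∀ l, Supp l → F l = f (l.parts.count 3)) (h2 : ∀ l, ¬ Supp l → F l = 0) :
    ∑ l : Nat.Partition d, F l = ∑ j ∈ Finset.range (d / 3 + 1), f j := by
  classical
  rw [← Finset.sum_filter_add_sum_filter_not Finset.univ Supp,
    Finset.sum_eq_zero (s := Finset.univ.filter fun l : Nat.Partition d => ¬ Supp l)
      (fun l hl => h2 l (Finset.mem_filter.1 hl).2), add_zero]
  refine Finset.sum_bij (fun l _ => l.parts.count 3) ?_ ?_ ?_ ?_
  · intro l hl
    have := supp_sum (Finset.mem_filter.1 hl).2
    rw [Finset.mem_range]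
    omega
  · intro l hl l' hl' h
    have e := supp_sum (Finset.mem_filter.1 hl).2
    have e' := supp_sum (Finset.mem_filter.1 hl').2
    apply Nat.Partition.ext
    rw [supp_parts (Finset.mem_filter.1 hl).2, supp_parts (Finset.mem_filter.1 hl').2, h,
      show l.parts.count 1 = l'.parts.count 1 by omega]
  · intro j hj
    rw [Finset.mem_range] at hj
    exact ⟨exPart d j (by omega), Finset.mem_filter.2 ⟨Finset.mem_univ _, exPart_supp _ _ _⟩,
      exPart_count_three _ _ _⟩
  · intro l hl
    exact h1 l (Finset.mem_filter.1 hl).2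

end Partitions

variable {k : Type} [Field k]

theorem exC_clsX (d : ℕ) : (exC k).clsX d = ∑ j ∈ Finset.range (d / 3 + 1), lef k ^ j :=
  sum_supp d (fun l => cls ((exC k).comp d l)) (fun j => lef k ^ j)
    (fun _ hl => (exC_supp hl).1) (fun _ hl => (exC_not_supp hl).1)

theorem exC_dimX (d : ℕ) : ⨆ l : Nat.Partition d, ((exC k).comp d l).dim =
    (((d / 3 : ℕ) : ℕ∞) : WithBot ℕ∞) := by
  apply le_antisymm
  · refine iSup_le fun l => ?_
    by_cases hl : Supp l
    · rw [(exC_supp hl).2.1]
      have := supp_sum hl
      have h : l.parts.count 3 ≤ d / 3 := by omega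
      exact_mod_cast h
    · rw [(exC_not_supp hl).2.1]
      exact bot_le
  · refine le_iSup_of_le (exPart d (d / 3) (by omega)) ?_
    rw [(exC_supp (exPart_supp _ _ _)).2.1, exPart_count_three]

variable (k) in
/-- The inverse of the generating series. -/
noncomputable def exP : PowerSeries (K0 k) :=
  (1 - PowerSeries.X) * (1 - PowerSeries.C (lef k) * PowerSeries.X ^ 3)

variable (k) in
/-- The coefficients of the inverse of the generating series. -/
noncomputable def exA (n : ℕ) : K0 k := PowerSeries.coeff n (exP k)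

theorem series_identity {A : Type*} [CommRing A] (L : A) (g : ℕ → A)
    (hg : ∀ d, g d = ∑ j ∈ Finset.range (d / 3 + 1), L ^ j) :
    PowerSeries.mk g * ((1 - PowerSeries.X) * (1 - PowerSeries.C L * PowerSeries.X ^ 3)) = 1 := by
  have h1 : PowerSeries.mk g * (1 - PowerSeries.C L * PowerSeries.X ^ 3) =
      PowerSeries.mk 1 := by
    ext n
    rw [mul_sub, mul_one, map_sub, ← mul_assoc, PowerSeries.coeff_mul_X_pow',
      mul_comm _ (PowerSeries.C L), PowerSeries.coeff_C_mul, PowerSeries.coeff_mk,
      PowerSeries.coeff_mk, PowerSeries.coeff_mk, hg, hg]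
    by_cases hn : 3 ≤ n
    · rw [if_pos hn]
      obtain ⟨n, rfl⟩ := Nat.exists_eq_add_of_le' hn
      rw [show (n + 3) / 3 + 1 = (n / 3 + 1) + 1 by omega, Nat.add_sub_cancel,
        Finset.sum_range_succ', Finset.mul_sum]
      simp [pow_succ']
    · rw [if_neg hn, show n / 3 + 1 = 1 by omega]
      simp
  rw [mul_comm (1 - PowerSeries.X), ← mul_assoc, h1]
  exact PowerSeries.mk_one_mul_one_sub_eq_one _

theorem series_coeff {A : Type*} [CommRing A] (L : A) (n : ℕ) :
    PowerSeries.coeff n ((1 - PowerSeries.X) * (1 - PowerSeries.C L * PowerSeries.X ^ 3)) =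
    (if n = 0 then 1 else 0) - (if n = 1 then 1 else 0) -
    (if n = 3 then L else 0) + (if n = 4 then L else 0) := by
  have h : (1 - PowerSeries.X) * (1 - PowerSeries.C L * PowerSeries.X ^ 3) =
      1 - PowerSeries.X - PowerSeries.C L * PowerSeries.X ^ 3 +
      PowerSeries.C L * PowerSeries.X ^ 4 := by
    ring
  rw [h, map_add, map_sub, map_sub, PowerSeries.coeff_C_mul, PowerSeries.coeff_C_mul,
    PowerSeries.coeff_one, PowerSeries.coeff_X, PowerSeries.coeff_X_pow, PowerSeries.coeff_X_pow]
  simp

theorem exA_spec : PowerSeries.mk (exC k).clsX * PowerSeries.mk (exA k) = 1 := by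
  have h0 : PowerSeries.mk (exA k) = exP k := by
    ext n
    rw [PowerSeries.coeff_mk, exA]
  rw [h0]
  exact series_identity (lef k) (exC k).clsX exC_clsX

theorem exA_eq (n : ℕ) : exA k n = (if n = 0 then 1 else 0) - (if n = 1 then 1 else 0) -
    (if n = 3 then lef k else 0) + (if n = 4 then lef k else 0) := series_coeff (lef k) n

end Pool.Agent.Lib.MP_6cd1fc_ag
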