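import Pool.Agent.Lib.MP_6cd1fc_ag.TopoDefs

/-!
# Properties of the topology of the completed Grothendieck ring
-/

open AlgebraicGeometry CategoryTheory Limits TopologicalSpace Topology UniformSpace

namespace Pool.Agent.Lib.MP_6cd1fc_ag

variable {k : Type} [Field k]

instance : NonarchimedeanRing (K0L k) := (filt_basis k).nonarchimedean

instance : IsTopologicalRing (MHat k) :=
  (inferInstance : IsTopologicalRing (Completion (K0L k)))

instance : IsUniformAddGroup (MHat k) :=
  (inferInstance : IsUniformAddGroup (Completion (K0L k)))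

instance : CompleteSpace (MHat k) := (inferInstance : CompleteSpace (Completion (K0L k)))

instance : T2Space (MHat k) := (inferInstance : T2Space (Completion (K0L k)))

instance : NonarchimedeanRing (MHat k) :=
  (inferInstance : NonarchimedeanRing (Completion (K0L k)))

theorem nhds_basis : (𝓝 (0 : K0L k)).HasBasis (fun _ : ℤ => True)
    (fun m => (filt k m : Set (K0L k))) :=
  (filt_basis k).hasBasis_nhds_zero

theorem filt_mem_nhds (m : ℤ) : (filt k m : Set (K0L k)) ∈ 𝓝 (0 : K0L k) :=
  nhds_basis.mem_of_mem trivial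

theorem filt_isClosed (m : ℤ) : IsClosed (filt k m : Set (K0L k)) :=
  AddSubgroup.isClosed_of_isOpen _ (AddSubgroup.isOpen_of_mem_nhds _ (filt_mem_nhds m))

/-- The closure of `F_m` in the completion. -/
def fhat (m : ℤ) : Set (MHat k) := closure (toHat k '' filt k m)

theorem coe_mem_fhat {m : ℤ} {x : K0L k} (hx : x ∈ filt k m) : toHat k x ∈ fhat m :=
  subset_closure ⟨x, hx, rfl⟩

theorem mem_of_coe_mem_fhat {m : ℤ} {x : K0L k} (hx : toHat k x ∈ fhat m) :
    x ∈ filt k m := by
  have h := (Completion.isUniformInducing_coe (K0L k)).isInducing.closure_eq_preimage_closure_image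
    (filt k m : Set (K0L k))
  rw [(filt_isClosed m).closure_eq] at h
  change x ∈ (filt k m : Set (K0L k))
  rw [h]
  exact hx

theorem fhat_mul {m l : ℤ} {x y : MHat k} (hx : x ∈ fhat m) (hy : y ∈ fhat l) :
    x * y ∈ fhat (m + l) := by
  refine map_mem_closure₂ continuous_mul hx hy ?_
  rintro _ ⟨a, ha, rfl⟩ _ ⟨b, hb, rfl⟩
  exact ⟨a * b, filt_mul ha hb, map_mul (toHat k) a b⟩

theorem fhat_mem_nhds (m : ℤ) : (fhat m : Set (MHat k)) ∈ 𝓝 (0 : MHat k) := by
  have := (Completion.isDenseInducing_coe (α := K0L k)).closure_image_mem_nhds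
    (filt_mem_nhds (k := k) m)
  rwa [Completion.coe_zero] at this

theorem continuous_toHat : Continuous (toHat k) := Completion.continuous_coe (K0L k)

/-- In a complete nonarchimedean ring, `1 - z` is invertible if the powers of `z` tend to `0`. -/
theorem isUnit_one_sub_of_tendsto {A : Type*} [CommRing A] [UniformSpace A] [IsUniformAddGroup A]
    [NonarchimedeanRing A] [CompleteSpace A] [T2Space A] {z : A}
    (hlim : Filter.Tendsto (fun n : ℕ => z ^ n) Filter.cofinite (𝓝 (0 : A))) :
    IsUnit (1 - z) := by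
  have hsum := NonarchimedeanAddGroup.summable_of_tendsto_cofinite_zero hlim
  have h2 : ∑' n : ℕ, z ^ n = 1 + z * ∑' n : ℕ, z ^ n := by
    conv_lhs => rw [hsum.tsum_eq_zero_add, pow_zero]
    rw [← hsum.tsum_mul_left]
    simp only [pow_succ']
  refine IsUnit.of_mul_eq_one (∑' n : ℕ, z ^ n) ?_
  rw [sub_mul, one_mul, sub_eq_iff_eq_add]
  exact h2

/-- Elements `1 - z` with `z ∈ F_1` are invertible in the completion. -/
theorem isUnit_one_sub {z : K0L k} (hz : z ∈ filt k 1) : IsUnit (1 - toHat k z) := by
  have hpow : ∀ n : ℕ, z ^ n ∈ filt k n := by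
    intro n
    induction n with
    | zero => simpa using one_mem_filt (k := k)
    | succ n ih =>
      rw [pow_succ]
      exact_mod_cast filt_mul ih hz
  have hlim0 : Filter.Tendsto (fun n : ℕ => z ^ n) Filter.cofinite (𝓝 (0 : K0L k)) := by
    rw [Nat.cofinite_eq_atTop, nhds_basis.tendsto_right_iff]
    intro m _
    filter_upwards [Filter.eventually_ge_atTop m.toNat] with n hn
    exact filt_antitone (by omega) (hpow n)
  have hlim : Filter.Tendsto (fun n : ℕ => (toHat k z) ^ n) Filter.cofinite
      (𝓝 (0 : MHat k)) := by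
    have h1 := (continuous_toHat.tendsto (0 : K0L k)).comp hlim0
    rw [map_zero] at h1
    exact h1.congr fun n => map_pow (toHat k) z n
  exact isUnit_one_sub_of_tendsto hlim

end Pool.Agent.Lib.MP_6cd1fc_ag
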