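import Pool.Agent.Lib.MP_6cd1fc_ag.ExLocus
import Pool.Agent.Lib.MP_6cd1fc_ag.Topo
import Pool.Agent.Lib.MP_6cd1fc_ag.ExSeries

/-!
# The counterexample
-/

open AlgebraicGeometry CategoryTheory Limits TopologicalSpace Topology Filter

namespace Pool.Agent.Lib.MP_6cd1fc_ag

variable {k : Type} [Field k]

theorem toMHat_eq (x : K0 k) : toMHat k x = toHat k (algebraMap (K0 k) (K0L k) x) :=
  rfl

theorem lefPow_eq (p : ℤ) : lefPow k p = toHat k ((lefUnit k ^ p : (K0L k)ˣ) : K0L k) := rfl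

theorem lefPow_add (p q : ℤ) : lefPow k (p + q) = lefPow k p * lefPow k q := by
  rw [lefPow, lefPow, lefPow, zpow_add, Units.val_mul, map_mul]

theorem lefPow_zero : lefPow k 0 = 1 := by
  rw [lefPow, zpow_zero, Units.val_one, map_one]

theorem toMHat_lef_pow (n : ℕ) : toMHat k (lef k ^ n) = lefPow k n := by
  rw [toMHat, lefPow, RingHom.comp_apply, map_pow, zpow_natCast, Units.val_pow_eq_pow_val]
  rfl

theorem isUnit_clsX (d : ℕ) : IsUnit (toMHat k ((exC k).clsX d)) := by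
  have h1 : (exC k).clsX d * (lef k - 1) = lef k ^ (d / 3 + 1) - 1 := by
    rw [exC_clsX, geom_sum_mul]
  have h2 : toMHat k (lef k ^ (d / 3 + 1) - 1) =
      lefPow k ((d / 3 + 1 : ℕ) : ℤ) * (1 - lefPow k (-((d / 3 + 1 : ℕ) : ℤ))) := by
    rw [map_sub, map_one, toMHat_lef_pow, mul_sub, mul_one, ← lefPow_add, add_neg_cancel,
      lefPow_zero]
  have h3 : IsUnit (lefPow k ((d / 3 + 1 : ℕ) : ℤ)) := by
    refine IsUnit.of_mul_eq_one (lefPow k (-((d / 3 + 1 : ℕ) : ℤ))) ?_
    rw [← lefPow_add, add_neg_cancel, lefPow_zero]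
  have h4 : IsUnit (1 - lefPow k (-((d / 3 + 1 : ℕ) : ℤ))) := by
    rw [lefPow_eq]
    refine isUnit_one_sub ?_
    refine filt_antitone ?_ (lefUnit_zpow_mem _)
    push_cast
    omega
  have h5 : IsUnit (toMHat k ((exC k).clsX d) * toMHat k (lef k - 1)) := by
    rw [← map_mul, h1, h2]
    exact h3.mul h4
  exact isUnit_of_mul_isUnit_left h5

variable (k) in
/-- The counterexample: `𝒰 = (point, ∅, 𝔸¹, ∅, ∅, ...)`, `r = 1`, `n = 2` and `μ` the identity. -/
noncomputable def exSetup : Setup k where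
  G := exG k
  C := exC k
  r := 1
  n := 2
  one_le_r := le_rfl
  one_le_n := by norm_num
  L := exL k
  dimX d := d / 3
  dimX_eq := exC_dimX
  a := exA k
  a_spec := exA_spec
  R := MHat k
  μ := RingHom.id _
  continuous_μ := continuous_id
  unitX d := (isUnit_clsX d).unit
  unitX_eq d := IsUnit.unit_spec _

theorem exSetup_hasSum : HasSum (exSetup k).term (-1) := by
  have hterm : ∀ j, (exSetup k).term j =
      toMHat k (exA k (j + 1)) * lefPow k (-((1 * (((j + 1) * 2) / 3) : ℕ) : ℤ)) := fun _ => rfl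
  have h1 : HasSum (exSetup k).term (∑ j ∈ Finset.range 4, (exSetup k).term j) := by
    refine hasSum_sum_of_ne_finset_zero fun j hj => ?_
    rw [Finset.mem_range, not_lt] at hj
    rw [hterm, exA_eq, if_neg (by omega), if_neg (by omega), if_neg (by omega),
      if_neg (by omega)]
    simp
  have h2 : ∑ j ∈ Finset.range 4, (exSetup k).term j = -1 := by
    rw [Finset.sum_range_succ, Finset.sum_range_succ, Finset.sum_range_succ,
      Finset.sum_range_one, hterm, hterm, hterm, hterm]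
    simp only [exA_eq]
    norm_num
    rw [lefPow_zero]
  rwa [h2] at h1

/-- The estimate which excludes convergence: `[𝒵]` is not small compared to `[𝒳_{3(m+1)}]`. -/
theorem clsZ_not_mem [Finite k] (Ks : ℕ → Type) [∀ s, Field (Ks s)] [∀ s, Algebra k (Ks s)]
    [∀ s, Finite (Ks s)] (hK : ∀ B : ℕ, ∃ s, B < Nat.card (Ks s)) (m : ℕ) :
    algebraMap (K0 k) (K0L k) ((exL k).clsZ fun _ => 3 * (m + 1)) ∉ filt k (-(m : ℤ)) := by
  intro hmem
  obtain ⟨C, hC⟩ := countL_bound hmem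
  obtain ⟨D, hD⟩ := numPts_discVar_ge (k := k) m
  have key : ∀ s : ℕ, (Nat.card (Ks s) : ℝ) ≤ C + D := by
    intro s
    have hpos : (0 : ℝ) < Nat.card (Ks s) := by exact_mod_cast Nat.card_pos (α := Ks s)
    have h1 := hC (Ks s)
    have h2 := hD (Ks s)
    rw [countL_algebraMap, PowerfreeLoci.clsZ, map_sum] at h1
    have hnn : ∀ l ∈ (Finset.univ : Finset (∀ _ : Fin 1, Nat.Partition (3 * (m + 1)))),
        0 ≤ countK0 (Ks s) (cls ((exL k).Z (fun _ => 3 * (m + 1)) l)) := by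
      intro l _
      rw [countK0_cls]
      positivity
    have h3 := Finset.single_le_sum hnn (Finset.mem_univ
      (fun _ : Fin 1 => exPart (3 * (m + 1)) (m + 1) le_rfl))
    have h4 : countK0 (Ks s) (cls ((exL k).Z (fun _ => 3 * (m + 1))
        (fun _ : Fin 1 => exPart (3 * (m + 1)) (m + 1) le_rfl))) =
        numPts (Ks s) (discVar k (m + 1)) := by
      rw [countK0_cls]
      obtain ⟨e⟩ := exL_disc (k := k) (fun _ => 3 * (m + 1))
        (fun _ : Fin 1 => exPart (3 * (m + 1)) (m + 1) le_rfl) (exPart_supp _ _ _)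
        (by rw [exPart_count_one]; omega)
      rw [exPart_count_three] at e
      rw [numPts_iso (Ks s) _ _ e]
    rw [h4] at h3
    rw [neg_neg, zpow_natCast] at h1
    have h5 := (h2.trans h3).trans ((le_abs_self _).trans h1)
    rw [pow_succ] at h5
    have h6 : ((Nat.card (Ks s) : ℝ)) ^ m * Nat.card (Ks s) ≤
        (Nat.card (Ks s) : ℝ) ^ m * (C + D) := by linarith
    exact le_of_mul_le_mul_left h6 (pow_pos hpos m)
  obtain ⟨B, hB⟩ := exists_nat_ge (C + D)
  obtain ⟨s, hs⟩ := hK B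
  have h7 := key s
  have h8 : (B : ℝ) < Nat.card (Ks s) := by exact_mod_cast hs
  linarith

theorem clsX_mem (m : ℕ) :
    algebraMap (K0 k) (K0L k) ((exC k).clsX (3 * (m + 1))) ∈ filt k (-((m : ℤ) + 1)) := by
  rw [exC_clsX, map_sum]
  refine sum_mem fun j hj => ?_
  rw [Finset.mem_range] at hj
  have h1 : algebraMap (K0 k) (K0L k) (lef k ^ j) = ((lefUnit k ^ (j : ℤ) : (K0L k)ˣ) : K0L k) := by
    rw [map_pow, zpow_natCast, Units.val_pow_eq_pow_val]
    rfl
  rw [h1]
  exact filt_antitone (by omega) (lefUnit_zpow_mem _)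

/-- The squarefree locus is empty in degrees congruent to `2` modulo `3`. -/
theorem clsZ_eq_zero (m : ℕ) : (exL k).clsZ (fun _ => 3 * m + 2) = 0 := by
  refine Finset.sum_eq_zero fun l _ => exL_zero _ l ?_
  rintro ⟨h1, h2⟩
  have := supp_sum h1
  omega

theorem exSetup_ratio (N : ℕ) : (exSetup k).ratio (fun _ => N) =
    toMHat k ((exL k).clsZ fun _ => N) *
      (((isUnit_clsX (k := k) N).unit⁻¹ : (MHat k)ˣ) : MHat k) := by
  change _ * ∏ j : Fin 1, _ = _
  rw [Fin.prod_univ_one]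
  rfl

/-- The ratio does not converge. -/
theorem exSetup_not_tendsto [Finite k] (Ks : ℕ → Type) [∀ s, Field (Ks s)]
    [∀ s, Algebra k (Ks s)] [∀ s, Finite (Ks s)] (hK : ∀ B : ℕ, ∃ s, B < Nat.card (Ks s))
    (x : MHat k) : ¬ Tendsto (exSetup k).ratio atTop (𝓝 x) := by
  intro hT
  -- the limit is zero
  have hx : x = 0 := by
    have hsub : Tendsto (fun m : ℕ => (fun _ => 3 * m + 2 : Fin 1 → ℕ)) atTop atTop := by
      rw [tendsto_atTop_atTop]
      intro b
      refine ⟨b 0, fun m hm j => ?_⟩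
      obtain rfl : j = 0 := Subsingleton.elim _ _
      change b 0 ≤ 3 * m + 2
      omega
    have h1 : Tendsto (fun m : ℕ => (exSetup k).ratio (fun _ => 3 * m + 2)) atTop (𝓝 x) :=
      hT.comp hsub
    have h2 : ∀ m : ℕ, (exSetup k).ratio (fun _ => 3 * m + 2) = (0 : MHat k) := by
      intro m
      have h3 := exSetup_ratio (k := k) (3 * m + 2)
      rw [clsZ_eq_zero, map_zero, zero_mul] at h3
      exact h3
    have h4 : Tendsto (fun _ : ℕ => (0 : MHat k)) atTop (𝓝 x) := h1.congr h2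
    exact tendsto_nhds_unique h4 tendsto_const_nhds
  subst hx
  have h1 : ∀ᶠ d : Fin 1 → ℕ in atTop, (exSetup k).ratio d ∈ fhat 1 :=
    hT.eventually (fhat_mem_nhds (k := k) 1)
  obtain ⟨N, hN⟩ := eventually_atTop.1 h1
  obtain ⟨m, hm⟩ : ∃ m, m = N 0 := ⟨_, rfl⟩
  have h2 := hN (fun _ => 3 * (m + 1)) (fun j => by
    obtain rfl : j = 0 := Subsingleton.elim _ _
    change N 0 ≤ 3 * (m + 1)
    omega)
  have h2' := Set.mem_of_eq_of_mem (exSetup_ratio (k := k) (3 * (m + 1))).symm h2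
  have h4 := fhat_mul h2' (coe_mem_fhat (clsX_mem (k := k) m))
  have h5 : toHat k (algebraMap (K0 k) (K0L k) ((exC k).clsX (3 * (m + 1)))) =
      (((isUnit_clsX (k := k) (3 * (m + 1))).unit : (MHat k)ˣ) : MHat k) := rfl
  rw [h5, mul_assoc, Units.inv_mul, mul_one] at h4
  refine clsZ_not_mem (k := k) Ks hK m ?_
  have h6 := mem_of_coe_mem_fhat h4
  rwa [show (1 : ℤ) + -((m : ℤ) + 1) = -(m : ℤ) by ring] at h6

/-- A finite field has arbitrarily large finite extensions. -/
theorem exists_large (k : Type) [Field k] [Finite k] : ∃ (p : ℕ) (_ : Fact p.Prime)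
    (_ : CharP k p), ∀ B : ℕ, ∃ s, B < Nat.card (FiniteField.Extension k p (s + 1)) := by
  obtain ⟨p, hp⟩ := CharP.exists k
  have hprime : Fact p.Prime := ⟨CharP.char_is_prime k p⟩
  refine ⟨p, hprime, hp, fun B => ⟨B, ?_⟩⟩
  rw [FiniteField.natCard_extension]
  have h2 : 2 ≤ Nat.card k := Finite.one_lt_card
  calc B < 2 ^ B := Nat.lt_two_pow_self
    _ ≤ 2 ^ (B + 1) := Nat.pow_le_pow_right (by norm_num) (by omega)
    _ ≤ Nat.card k ^ (B + 1) := Nat.pow_le_pow_left h2 _

end Pool.Agent.Lib.MP_6cd1fc_ag
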