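import Pool.Agent.Lib.MP_6cd1fc_ag.ExCycles

/-!
# The squarefree loci of the graded space `(point, ∅, 𝔸¹, ∅, ∅, ...)`
-/

open AlgebraicGeometry CategoryTheory Limits TopologicalSpace Topology Filter

namespace Pool.Agent.Lib.MP_6cd1fc_ag

variable {k : Type} [Field k]

/-- The definition of a powerfree tuple for `r = 1`. -/
theorem isPowerfree_one_iff {G : GradedSpace k} (C : CycleSpaces G) (n : ℕ) {d : Fin 1 → ℕ}
    (l : ∀ j, Nat.Partition (d j)) (K : Type) [Field K] [Algebra k K]
    (w : ∀ j, specOver k K ⟶ (C.comp (d j) (l j)).obj) :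
    IsPowerfree C n l K w ↔ ∀ i : ℕ,
      ∃ y : specOver k K ⟶ (C.sym i ((l 0).parts.count (i + 1))).P,
        y ≫ (C.sym i ((l 0).parts.count (i + 1))).π = w 0 ≫ C.proj (d 0) (l 0) i ∧
        ∀ x : specOver k K ⟶ (G.U i).obj, Nat.card {a : Fin ((l 0).parts.count (i + 1)) //
          y ≫ (C.sym i ((l 0).parts.count (i + 1))).proj a = x} < n := by
  constructor
  · rintro ⟨y, hy, hx⟩ i
    refine ⟨y 0 i, hy 0 i, fun x => ?_⟩
    obtain ⟨j, hj⟩ := hx i x
    obtain rfl : j = 0 := Subsingleton.elim _ _
    exact hj
  · intro h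
    have h1 : ∀ (j : Fin 1) (i : ℕ),
        ∃ y : specOver k K ⟶ (C.sym i ((l j).parts.count (i + 1))).P,
        y ≫ (C.sym i ((l j).parts.count (i + 1))).π = w j ≫ C.proj (d j) (l j) i ∧
        ∀ x : specOver k K ⟶ (G.U i).obj, Nat.card {a : Fin ((l j).parts.count (i + 1)) //
          y ≫ (C.sym i ((l j).parts.count (i + 1))).proj a = x} < n := by
      intro j
      obtain rfl : j = 0 := Subsingleton.elim _ _
      exact h
    choose y hy hx using h1
    exact ⟨y, hy, fun i x => ⟨0, hx 0 i x⟩⟩

/-- Two points of the line with the same coordinate are equal. -/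
theorem line_proj_eq_iff {K : Type} [Field K] [Algebra k K] {m : ℕ}
    (ψ : MvPolynomial (Fin m) k →ₐ[k] K) (a b : Fin m) :
    specMap k ψ ≫ (symLine (k := k) m).proj a = specMap k ψ ≫ (symLine (k := k) m).proj b ↔
      ψ (MvPolynomial.X a) = ψ (MvPolynomial.X b) := by
  have h : ∀ a : Fin m, specMap k ψ ≫ (symLine (k := k) m).proj a =
      specMap k (ψ.comp (MvPolynomial.rename fun _ : Fin 1 => a)) := fun a => specMap_comp k _ _
  rw [h, h]
  constructor
  · intro h1
    have h2 := (specMap_bijective k).1 h1
    have h3 := congrArg (fun f => f (MvPolynomial.X 0)) h2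
    simpa using h3
  · intro h1
    congr 1
    ext i
    simpa using h1

theorem not_isEmpty_spec (K : Type) [Field K] [Algebra k K] :
    ¬ IsEmpty (specOver k K).left := fun h =>
  h.false (show (specOver k K).left from (⊥ : PrimeSpectrum K))

theorem exists_locus (d : Fin 1 → ℕ) (l : ∀ j, Nat.Partition (d j)) :
    ∃ (W : Variety k) (proj : ∀ j, W.obj ⟶ ((exC k).comp (d j) (l j)).obj) (Z : Variety k)
      (ι : Z.obj ⟶ W.obj),
      (∀ (T : Over (Spec (CommRingCat.of k)))
        (f : ∀ j, T ⟶ ((exC k).comp (d j) (l j)).obj), ∃! g : T ⟶ W.obj, ∀ j, g ≫ proj j = f j) ∧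
      IsOpenImmersion ι.left ∧
      (∀ (K : Type) [Field K] [Algebra k K] [IsAlgClosed K] (w : specOver k K ⟶ W.obj),
        (∃ z : specOver k K ⟶ Z.obj, z ≫ ι = w) ↔
          IsPowerfree (exC k) 2 l K (fun j => w ≫ proj j)) ∧
      (Supp (l 0) → (l 0).parts.count 1 = 0 →
        Nonempty (Z.obj ≅ (discVar k ((l 0).parts.count 3)).obj)) ∧
      (¬ (Supp (l 0) ∧ (l 0).parts.count 1 ≤ 1) → cls Z = 0) := by
  obtain ⟨proj, hproj⟩ : ∃ proj : ∀ j, ((exC k).comp (d 0) (l 0)).obj ⟶
      ((exC k).comp (d j) (l j)).obj, proj 0 = 𝟙 _ :=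
    ⟨fun j => match j with | 0 => 𝟙 _, rfl⟩
  have hprod : ∀ (T : Over (Spec (CommRingCat.of k)))
      (f : ∀ j, T ⟶ ((exC k).comp (d j) (l j)).obj),
      ∃! g : T ⟶ ((exC k).comp (d 0) (l 0)).obj, ∀ j, g ≫ proj j = f j := by
    intro T f
    refine ⟨f 0, fun j => ?_, fun g hg => ?_⟩
    · obtain rfl : j = 0 := Subsingleton.elim _ _
      rw [hproj, Category.comp_id]
    · rw [← hg 0, hproj, Category.comp_id]
  by_cases hl : Supp (l 0)
  · obtain ⟨-, -, hiso⟩ := exC_supp (k := k) hl
    obtain ⟨q, hq⟩ : ∃ q : ((exC k).comp (d 0) (l 0)).obj ⟶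
        (affineSpace k ((l 0).parts.count 3)).obj, q = (exC k).proj (d 0) (l 0) 2 := ⟨_, rfl⟩
    have hqiso : IsIso q := by rw [hq]; exact hiso
    -- points of the component
    have hterm : ∀ i, i ≠ 2 → IsTerm (exSym k i ((l 0).parts.count (i + 1))).S.obj :=
      fun i hi => exSym_isTerm k i _ hi fun h0 => hl i h0 hi
    have htermP : ∀ i, i ≠ 2 → IsTerm (exSym k i ((l 0).parts.count (i + 1))).P :=
      fun i hi => exSym_isTermP k i _ hi fun h0 => hl i h0 hi
    by_cases h1 : (l 0).parts.count 1 ≤ 1
    · refine ⟨(exC k).comp (d 0) (l 0), proj, discVar k ((l 0).parts.count 3),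
        discι k ((l 0).parts.count 3) ≫ inv q, hprod, ?_, ?_,
        fun _ _ => ⟨Iso.refl _⟩, fun h => absurd ⟨hl, h1⟩ h⟩
      · have ho := discι_open k ((l 0).parts.count 3)
        have : IsIso (inv q).left :=
          inferInstanceAs (IsIso ((Over.forget (Spec (CommRingCat.of k))).map (inv q)))
        rw [Over.comp_left]
        infer_instance
      · intro K _ _ _ w
        rw [isPowerfree_one_iff]
        obtain ⟨φ, hφ⟩ := (specMap_bijective k (B := K)
          (C := MvPolynomial (Fin ((l 0).parts.count 3)) k)).2 (w ≫ q)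
        have hw : (∃ z : specOver k K ⟶ (discVar k ((l 0).parts.count 3)).obj,
            z ≫ discι k ((l 0).parts.count 3) ≫ inv q = w) ↔
            φ (discPoly k ((l 0).parts.count 3)) ≠ 0 := by
          rw [← discι_lift_iff φ, hφ]
          refine exists_congr fun z => ?_
          rw [← Category.assoc, IsIso.comp_inv_eq]
          rfl
        rw [hw]
        constructor
        · intro hdisc i
          rw [hproj, Category.comp_id]
          by_cases hi : i = 2
          · subst hi
            obtain ⟨ψ, hψ⟩ := exists_lift φ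
            refine ⟨specMap k ψ, ?_, fun x => ?_⟩
            · rw [← hq]
              refine Eq.trans ?_ hφ
              refine (specMap_comp k _ _).trans ?_
              exact congrArg _ hψ
            · rw [← hψ, disc_iff_injective] at hdisc
              have hsub : Subsingleton {a : Fin ((l 0).parts.count (2 + 1)) //
                  specMap k ψ ≫ ((exC k).sym 2 ((l 0).parts.count (2 + 1))).proj a = x} := by
                refine ⟨fun a b => Subtype.ext (hdisc ?_)⟩
                exact (line_proj_eq_iff ψ a.1 b.1).1 (a.2.trans b.2.symm)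
              exact lt_of_le_of_lt (Finite.card_le_one_iff_subsingleton.2 hsub) one_lt_two
          · obtain ⟨⟨y⟩, hy⟩ := htermP i hi (specOver k K)
            refine ⟨y, (hterm i hi _).2 _ _, fun x => ?_⟩
            refine lt_of_le_of_lt (Nat.card_le_card_of_injective _ Subtype.val_injective) ?_
            rw [Nat.card_fin]
            by_cases h0 : i = 0
            · subst h0; exact lt_of_le_of_lt h1 one_lt_two
            · rw [hl i h0 hi]; exact two_pos
        · intro h
          obtain ⟨y, hy, hx⟩ := h 2
          rw [hproj, Category.comp_id, ← hq] at hy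
          obtain ⟨ψ, rfl⟩ := (specMap_bijective k (B := K)
            (C := MvPolynomial (Fin ((l 0).parts.count (2 + 1))) k)).2 y
          have hψ : ψ.comp (esymmHom k ((l 0).parts.count (2 + 1))) = φ := by
            apply (specMap_bijective k).1
            exact (specMap_comp k _ _).symm.trans (hy.trans hφ.symm)
          rw [← hψ]
          refine (disc_iff_injective ψ).2 ?_
          intro a b hab
          by_contra hne
          have h2 := hx (specMap k ψ ≫ ((exC k).sym 2 ((l 0).parts.count (2 + 1))).proj b)
          have hnt : Nontrivial {a : Fin ((l 0).parts.count (2 + 1)) //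
              specMap k ψ ≫ ((exC k).sym 2 ((l 0).parts.count (2 + 1))).proj a =
              specMap k ψ ≫ ((exC k).sym 2 ((l 0).parts.count (2 + 1))).proj b} :=
            ⟨⟨a, (line_proj_eq_iff ψ a b).2 hab⟩, ⟨b, rfl⟩, fun h => hne (congrArg Subtype.val h)⟩
          have h3 := Finite.one_lt_card_iff_nontrivial.2 hnt
          exact lt_irrefl _ (lt_of_lt_of_le h3 (Nat.lt_succ_iff.1 h2))
    · refine ⟨(exC k).comp (d 0) (l 0), proj, emptyVar k,
        (nonempty_hom_of_isEmpty isEmpty_emptyVar _).some, hprod, ?_, ?_, fun _ h => by omega,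
        fun _ => cls_empty⟩
      · have : IsEmpty (emptyVar k).obj.left := isEmpty_emptyVar
        infer_instance
      · intro K _ _ _ w
        rw [isPowerfree_one_iff]
        constructor
        · rintro ⟨z, -⟩
          exact absurd (isEmpty_of_hom isEmpty_emptyVar z) (not_isEmpty_spec K)
        · intro h
          obtain ⟨y, -, hx⟩ := h 0
          exfalso
          have hx' := hx ((isTerm_pt (specOver k K)).1.some)
          have hall : ∀ a : Fin ((l 0).parts.count (0 + 1)),
              y ≫ ((exC k).sym 0 ((l 0).parts.count (0 + 1))).proj a =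
              (isTerm_pt (specOver k K)).1.some := fun a => (isTerm_pt (specOver k K)).2 _ _
          have hcard : Nat.card {a : Fin ((l 0).parts.count (0 + 1)) //
              y ≫ ((exC k).sym 0 ((l 0).parts.count (0 + 1))).proj a =
              (isTerm_pt (specOver k K)).1.some} = (l 0).parts.count 1 := by
            rw [Nat.card_congr (Equiv.subtypeUnivEquiv hall), Nat.card_fin]
          have hlt : (l 0).parts.count 1 < 2 := by
            rw [← hcard]; exact hx'
          omega
  · obtain ⟨hcls, -, hemp⟩ := exC_not_supp (k := k) hl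
    refine ⟨(exC k).comp (d 0) (l 0), proj, (exC k).comp (d 0) (l 0), 𝟙 _, hprod, ?_, ?_,
      fun h => absurd h hl, fun _ => hcls⟩
    · rw [Over.id_left]
      infer_instance
    · intro K _ _ _ w
      exact absurd (isEmpty_of_hom hemp w) (not_isEmpty_spec K)

variable (k) in
/-- The squarefree loci. -/
noncomputable def exL : PowerfreeLoci (exC k) 1 2 where
  W d l := Classical.choose (exists_locus (k := k) d l)
  proj d l := Classical.choose (Classical.choose_spec (exists_locus (k := k) d l))
  Z d l := Classical.choose (Classical.choose_spec (Classical.choose_spec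
    (exists_locus (k := k) d l)))
  ι d l := Classical.choose (Classical.choose_spec (Classical.choose_spec
    (Classical.choose_spec (exists_locus (k := k) d l))))
  isProd d l := (Classical.choose_spec (Classical.choose_spec (Classical.choose_spec
    (Classical.choose_spec (exists_locus (k := k) d l))))).1
  isOpen d l := (Classical.choose_spec (Classical.choose_spec (Classical.choose_spec
    (Classical.choose_spec (exists_locus (k := k) d l))))).2.1
  points d l := (Classical.choose_spec (Classical.choose_spec (Classical.choose_spec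
    (Classical.choose_spec (exists_locus (k := k) d l))))).2.2.1

theorem exL_disc (d : Fin 1 → ℕ) (l : ∀ j, Nat.Partition (d j)) (h1 : Supp (l 0))
    (h2 : (l 0).parts.count 1 = 0) :
    Nonempty (((exL k).Z d l).obj ≅ (discVar k ((l 0).parts.count 3)).obj) :=
  (Classical.choose_spec (Classical.choose_spec (Classical.choose_spec
    (Classical.choose_spec (exists_locus (k := k) d l))))).2.2.2.1 h1 h2

theorem exL_zero (d : Fin 1 → ℕ) (l : ∀ j, Nat.Partition (d j))
    (h : ¬ (Supp (l 0) ∧ (l 0).parts.count 1 ≤ 1)) : cls ((exL k).Z d l) = 0 :=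
  (Classical.choose_spec (Classical.choose_spec (Classical.choose_spec
    (Classical.choose_spec (exists_locus (k := k) d l))))).2.2.2.2 h

end Pool.Agent.Lib.MP_6cd1fc_ag
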