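import Pool.Agent.Lib.MP_6cd1fc_ag.Realize

/-!
# Multiplicativity of the dimension filtration
-/

open AlgebraicGeometry CategoryTheory Limits TopologicalSpace Topology

namespace Pool.Agent.Lib.MP_6cd1fc_ag

variable {k : Type} [Field k]

section Rel

theorem proj_eq_zero {f : MvPolynomial (Variety k) ℤ} (hf : K0Rel k f) : K0.proj k f = 0 :=
  Ideal.Quotient.eq_zero_iff_mem.2 (Ideal.subset_span hf)

theorem cls_unit (T : Variety k) (h : IsIso T.obj.hom) : cls T = 1 := by
  have h1 := proj_eq_zero (K0Rel.unit T h)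
  rw [map_sub, map_one, sub_eq_zero] at h1
  exact h1

theorem cls_iso (X Y : Variety k) (e : X.obj ≅ Y.obj) : cls X = cls Y := by
  have h1 := proj_eq_zero (K0Rel.iso X Y e)
  rw [map_sub, sub_eq_zero] at h1
  exact h1

theorem cls_scissor (X Z U : Variety k) (i : Z.obj ⟶ X.obj) (j : U.obj ⟶ X.obj)
    (hi : IsClosedImmersion i.left) (hj : IsOpenImmersion j.left)
    (h : Set.range i.left = (Set.range j.left)ᶜ) : cls X = cls Z + cls U := by
  have h1 := proj_eq_zero (K0Rel.scissor X Z U i j hi hj h)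
  rw [map_sub, map_add, sub_eq_zero] at h1
  exact h1

theorem cls_prod (X Y P : Variety k) (p : P.obj ⟶ X.obj) (q : P.obj ⟶ Y.obj)
    (h : ∀ (T : Over (Spec (CommRingCat.of k))) (f : T ⟶ X.obj) (g : T ⟶ Y.obj),
        ∃! l : T ⟶ P.obj, l ≫ p = f ∧ l ≫ q = g) : cls P = cls X * cls Y := by
  have h1 := proj_eq_zero (K0Rel.prod X Y P p q h)
  rw [map_sub, map_mul, sub_eq_zero] at h1
  exact h1

end Rel

section Prod

/-- The product of two varieties. -/
noncomputable def prodVar (X Y : Variety k) : Variety k where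
  obj := Over.mk (pullback.fst X.obj.hom Y.obj.hom ≫ X.obj.hom)
  locallyOfFiniteType := by
    change LocallyOfFiniteType (pullback.fst X.obj.hom Y.obj.hom ≫ X.obj.hom)
    infer_instance
  quasiCompact := by
    change QuasiCompact (pullback.fst X.obj.hom Y.obj.hom ≫ X.obj.hom)
    infer_instance
  separated := by
    change IsSeparated (pullback.fst X.obj.hom Y.obj.hom ≫ X.obj.hom)
    infer_instance

theorem clsL_prodVar (X Y : Variety k) : clsL (prodVar X Y) = clsL X * clsL Y := by
  rw [clsL, clsL, clsL, ← map_mul]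
  congr 1
  refine cls_prod X Y (prodVar X Y) (Over.homMk (pullback.fst X.obj.hom Y.obj.hom) rfl)
    (Over.homMk (pullback.snd X.obj.hom Y.obj.hom) pullback.condition.symm) ?_
  intro T f g
  have hfg : f.left ≫ X.obj.hom = g.left ≫ Y.obj.hom := by rw [Over.w, Over.w]
  refine ⟨Over.homMk (pullback.lift f.left g.left hfg) ?_, ⟨?_, ?_⟩, ?_⟩
  · change pullback.lift f.left g.left hfg ≫ pullback.fst X.obj.hom Y.obj.hom ≫ X.obj.hom = _
    rw [pullback.lift_fst_assoc, Over.w]
  · ext1
    exact pullback.lift_fst _ _ _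
  · ext1
    exact pullback.lift_snd _ _ _
  · rintro l ⟨h1, h2⟩
    ext1
    apply pullback.hom_ext
    · exact (congrArg (fun f => f.left) h1).trans (pullback.lift_fst f.left g.left hfg).symm
    · exact (congrArg (fun f => f.left) h2).trans (pullback.lift_snd f.left g.left hfg).symm

open TensorProduct in
theorem dim_prodVar (X Y : Variety k) (e e' : ℕ) (hX : X.dim ≤ (e : ℕ∞))
    (hY : Y.dim ≤ (e' : ℕ∞)) : (prodVar X Y).dim ≤ ((e + e' : ℕ) : ℕ∞) := by
  refine topDim_le_of_local (X := (pullback X.obj.hom Y.obj.hom : Scheme)) fun z => ?_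
  obtain ⟨A, _, _, _, j, hj, hz⟩ := exists_affine_nhd X (pullback.fst X.obj.hom Y.obj.hom z)
  obtain ⟨B, _, _, _, j', hj', hz'⟩ := exists_affine_nhd Y (pullback.snd X.obj.hom Y.obj.hom z)
  let F := pullback.map (specOver k A).hom (specOver k B).hom X.obj.hom Y.obj.hom j.left j'.left
    (𝟙 _) (by rw [Over.w, Category.comp_id]) (by rw [Over.w, Category.comp_id])
  have hF : IsOpenImmersion F := inferInstance
  refine ⟨_, inferInstance, F, hF.base_open, ?_, ?_⟩
  · rw [Scheme.Pullback.range_map]
    exact ⟨hz, hz'⟩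
  · have hiso : IsHomeomorph (pullbackSpecIso k A B).hom := by
      exact (Scheme.homeoOfIso (pullbackSpecIso k A B)).isHomeomorph
    have h1 := hiso.topologicalKrullDim_eq
    refine (h1.trans (PrimeSpectrum.topologicalKrullDim_eq_ringKrullDim
      (R := A ⊗[k] B))).le.trans ?_
    have hA : ringKrullDim A ≤ (e : ℕ∞) := by
      rw [← PrimeSpectrum.topologicalKrullDim_eq_ringKrullDim]
      exact (Topology.IsInducing.topologicalKrullDim_le hj.base_open.isInducing).trans hX
    have hB : ringKrullDim B ≤ (e' : ℕ∞) := by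
      rw [← PrimeSpectrum.topologicalKrullDim_eq_ringKrullDim]
      exact (Topology.IsInducing.topologicalKrullDim_le hj'.base_open.isInducing).trans hY
    refine (ringDim_tensor A B).trans ((add_le_add hA hB).trans ?_)
    rw [← WithBot.coe_add]
    exact_mod_cast le_rfl

end Prod

section Filtration

theorem filt_antitone {m m' : ℤ} (h : m ≤ m') : filt k m' ≤ filt k m := by
  refine AddSubgroup.closure_mono ?_
  rintro x ⟨X, e, p, he, hp, rfl⟩
  exact ⟨X, e, p, he, by omega, rfl⟩

theorem filt_mul {m l : ℤ} {x y : K0L k} (hx : x ∈ filt k m) (hy : y ∈ filt k l) :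
    x * y ∈ filt k (m + l) := by
  induction hx using AddSubgroup.closure_induction with
  | mem x hx =>
    induction hy using AddSubgroup.closure_induction with
    | mem y hy =>
      obtain ⟨X, e, p, he, hp, rfl⟩ := hx
      obtain ⟨Y, e', p', he', hp', rfl⟩ := hy
      refine AddSubgroup.subset_closure ⟨prodVar X Y, e + e', p + p',
        dim_prodVar X Y e e' he he', by push_cast; omega, ?_⟩
      rw [clsL_prodVar, neg_add, zpow_add]
      push_cast
      ring
    | zero => rw [mul_zero]; exact zero_mem _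
    | add y z _ _ hy hz => rw [mul_add]; exact add_mem hy hz
    | neg y _ hy => rw [mul_neg]; exact neg_mem hy
  | zero => rw [zero_mul]; exact zero_mem _
  | add x z _ _ hx hz => rw [add_mul]; exact add_mem hx hz
  | neg x _ hx => rw [neg_mul]; exact neg_mem hx

/-- The point. -/
noncomputable def ptVar (k : Type) [Field k] : Variety k := affineVariety k k

instance : IsIso (ptVar k).obj.hom := by
  change IsIso (Spec.map (CommRingCat.ofHom (algebraMap k k)))
  have : CommRingCat.ofHom (algebraMap k k) = 𝟙 _ := rfl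
  rw [this, Spec.map_id]
  infer_instance

theorem clsL_pt : clsL (ptVar k) = 1 := by
  rw [clsL, cls_unit _ inferInstance, map_one]

theorem dim_pt : (ptVar k).dim ≤ ((0 : ℕ) : ℕ∞) := by
  change topologicalKrullDim (PrimeSpectrum k) ≤ _
  rw [PrimeSpectrum.topologicalKrullDim_eq_ringKrullDim, ringKrullDim_eq_zero_of_field]
  rfl

theorem lefUnit_zpow_mem (p : ℤ) : ((lefUnit k ^ p : (K0L k)ˣ) : K0L k) ∈ filt k (-p) := by
  refine AddSubgroup.subset_closure ⟨ptVar k, 0, -p, dim_pt, by simp, ?_⟩
  rw [clsL_pt, one_mul, neg_neg]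

theorem one_mem_filt : (1 : K0L k) ∈ filt k 0 := by
  have := lefUnit_zpow_mem (k := k) 0
  simpa using this

theorem clsL_mem {X : Variety k} {e : ℕ} (he : X.dim ≤ (e : ℕ∞)) : clsL X ∈ filt k (-e) := by
  refine AddSubgroup.subset_closure ⟨X, e, 0, he, by simp, ?_⟩
  simp

/-- The filtration is exhaustive. -/
theorem exists_mem_filt (x : K0L k) : ∃ m : ℤ, x ∈ filt k m := by
  have hK0 : ∀ a : K0 k, ∃ m : ℤ, algebraMap (K0 k) (K0L k) a ∈ filt k m := by
    intro a
    obtain ⟨f, rfl⟩ : ∃ f, K0.proj k f = a := Ideal.Quotient.mk_surjective a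
    induction f using MvPolynomial.induction_on with
    | C n =>
      refine ⟨0, ?_⟩
      have h1 : algebraMap (K0 k) (K0L k) (K0.proj k (MvPolynomial.C n)) =
          n • (1 : K0L k) := by
        have h2 : (MvPolynomial.C n : MvPolynomial (Variety k) ℤ) = n • 1 := by
          rw [← MvPolynomial.C_1, MvPolynomial.smul_eq_C_mul, ← map_mul, mul_one]
        rw [h2, map_zsmul, map_zsmul, map_one, map_one]
      rw [h1]
      exact zsmul_mem one_mem_filt n
    | add f g hf hg =>
      obtain ⟨m, hm⟩ := hf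
      obtain ⟨l, hl⟩ := hg
      refine ⟨min m l, ?_⟩
      rw [map_add, map_add]
      exact add_mem (filt_antitone (min_le_left _ _) hm) (filt_antitone (min_le_right _ _) hl)
    | mul_X f X hf =>
      obtain ⟨m, hm⟩ := hf
      obtain ⟨e, he⟩ := exists_dim_bound X
      refine ⟨m + (-e), ?_⟩
      rw [map_mul, map_mul]
      exact filt_mul hm (clsL_mem he)
  obtain ⟨⟨a, s⟩, hs⟩ := IsLocalization.surj (Submonoid.powers (lef k)) x
  obtain ⟨m, hm⟩ := hK0 a
  obtain ⟨s, n, rfl⟩ := s
  refine ⟨m + n, ?_⟩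
  have h1 : x = algebraMap (K0 k) (K0L k) a * ((lefUnit k ^ (-(n : ℤ)) : (K0L k)ˣ) : K0L k) := by
    have h2 : algebraMap (K0 k) (K0L k) ((lef k) ^ n) =
        ((lefUnit k ^ (n : ℤ) : (K0L k)ˣ) : K0L k) := by
      rw [map_pow, zpow_natCast]
      rfl
    dsimp only at hs
    rw [← hs, h2, mul_assoc, ← Units.val_mul, ← zpow_add, add_neg_cancel, zpow_zero,
      Units.val_one, mul_one]
  rw [h1]
  have := lefUnit_zpow_mem (k := k) (-(n : ℤ))
  rw [neg_neg] at this
  exact filt_mul hm this

variable (k) in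
/-- The filtration defines a ring topology. -/
theorem filt_basis_aux : RingSubgroupsBasis (filt k) := by
  refine RingSubgroupsBasis.of_comm _ ?_ ?_ ?_
  · intro i j
    exact ⟨max i j, le_inf (filt_antitone (le_max_left _ _)) (filt_antitone (le_max_right _ _))⟩
  · intro i
    refine ⟨max i 0, ?_⟩
    rintro z ⟨x, hx, y, hy, rfl⟩
    exact filt_antitone (by omega) (filt_mul hx hy)
  · intro x i
    obtain ⟨m, hm⟩ := exists_mem_filt x
    refine ⟨i - m, fun y hy => ?_⟩
    have := filt_mul hm hy
    rwa [add_sub_cancel] at this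

end Filtration

end Pool.Agent.Lib.MP_6cd1fc_ag
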