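import Pool.Agent.Lib.MP_6cd1fc_ag.Defs
import Pool.Agent.Lib.MP_6cd1fc_ag.Dim
import Pool.Agent.Lib.MP_6cd1fc_ag.AlgCount

/-!
# Basic geometry of varieties: morphisms to affine schemes, affine neighbourhoods
-/

open AlgebraicGeometry CategoryTheory Limits TopologicalSpace Topology

namespace Pool.Agent.Lib.MP_6cd1fc_ag

variable (k : Type) [Field k]

section Spec

variable {B C D : Type} [CommRing B] [Algebra k B] [CommRing C] [Algebra k C]
  [CommRing D] [Algebra k D]

/-- The morphism of spectra over `k` given by a homomorphism of `k`-algebras. -/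
noncomputable def specMap (φ : C →ₐ[k] B) : specOver k B ⟶ specOver k C :=
  Over.homMk (Spec.map (CommRingCat.ofHom φ.toRingHom)) (by
    change Spec.map _ ≫ Spec.map _ = Spec.map _
    rw [← Spec.map_comp, ← CommRingCat.ofHom_comp]
    congr 2
    exact φ.comp_algebraMap)

theorem specMap_left (φ : C →ₐ[k] B) :
    (specMap k φ).left = Spec.map (CommRingCat.ofHom φ.toRingHom) := rfl

theorem specMap_comp (φ : C →ₐ[k] B) (ψ : D →ₐ[k] C) :
    specMap k φ ≫ specMap k ψ = specMap k (φ.comp ψ) := by
  ext1
  exact (Spec.map_comp (CommRingCat.ofHom ψ.toRingHom) (CommRingCat.ofHom φ.toRingHom)).symm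

theorem specMap_id : specMap k (AlgHom.id k B) = 𝟙 _ := by
  ext1
  rw [specMap_left]
  exact Spec.map_id _

/-- Morphisms of affine schemes over `k` are homomorphisms of `k`-algebras. -/
theorem specMap_bijective : Function.Bijective (specMap k (B := B) (C := C)) := by
  constructor
  · intro φ ψ h
    have h1 : (specMap k φ).left = (specMap k ψ).left := by rw [h]
    rw [specMap_left, specMap_left] at h1
    have h2 := Spec.map_injective h1
    ext x
    exact congrArg (fun g => g.hom x) h2
  · intro f
    have hw := Over.w f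
    let g : CommRingCat.of C ⟶ CommRingCat.of B := Spec.preimage f.left
    have hg : Spec.map g = f.left := Spec.map_preimage _
    have h1 : CommRingCat.ofHom (algebraMap k C) ≫ g = CommRingCat.ofHom (algebraMap k B) := by
      apply Spec.map_injective
      rw [Spec.map_comp, hg]
      exact hw
    refine ⟨{ g.hom with commutes' := fun r => congrArg (fun g => g.hom r) h1 }, ?_⟩
    ext1
    rw [specMap_left, ← hg]
    rfl

end Spec

section HomToSpec

variable {k}

/-- The structure homomorphism of the global sections of a scheme over `k`. -/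
noncomputable def structMap (T : Over (Spec (CommRingCat.of k))) : k →+* Γ(T.left, ⊤) :=
  ((Scheme.ΓSpecIso (CommRingCat.of k)).inv ≫ T.hom.appTop).hom

variable {B C : Type} [CommRing B] [Algebra k B] [CommRing C] [Algebra k C]

theorem toSpecΓ_structMap (T : Over (Spec (CommRingCat.of k))) :
    T.left.toSpecΓ ≫ Spec.map (CommRingCat.ofHom (structMap T)) = T.hom := by
  have : CommRingCat.ofHom (structMap T) =
    (Scheme.ΓSpecIso (CommRingCat.of k)).inv ≫ T.hom.appTop := rfl
  rw [this, Spec.map_comp, ← Scheme.toSpecΓ_naturality_assoc]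
  erw [toSpecΓ_SpecMap_ΓSpecIso_inv]
  exact Category.comp_id _

/-- The morphism to `Spec B` given by a homomorphism to global sections. -/
noncomputable def homToSpec (T : Over (Spec (CommRingCat.of k))) (φ : B →+* Γ(T.left, ⊤))
    (h : φ.comp (algebraMap k B) = structMap T) : T ⟶ specOver k B :=
  Over.homMk (T.left.toSpecΓ ≫ Spec.map (CommRingCat.ofHom φ)) (by
    change (T.left.toSpecΓ ≫ Spec.map (CommRingCat.ofHom φ)) ≫
      Spec.map (CommRingCat.ofHom (algebraMap k B)) = T.hom
    rw [Category.assoc, ← Spec.map_comp, ← CommRingCat.ofHom_comp, h, toSpecΓ_structMap])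

theorem homToSpec_left (T : Over (Spec (CommRingCat.of k))) (φ : B →+* Γ(T.left, ⊤))
    (h : φ.comp (algebraMap k B) = structMap T) :
    (homToSpec T φ h).left = T.left.toSpecΓ ≫ Spec.map (CommRingCat.ofHom φ) := rfl

/-- The homomorphism to global sections given by a morphism to `Spec B`. -/
noncomputable def comorph {T : Over (Spec (CommRingCat.of k))} (f : T ⟶ specOver k B) :
    B →+* Γ(T.left, ⊤) :=
  ((Scheme.ΓSpecIso (CommRingCat.of B)).inv ≫
    (show T.left ⟶ Spec (CommRingCat.of B) from f.left).appTop).hom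

theorem comorph_homToSpec (T : Over (Spec (CommRingCat.of k))) (φ : B →+* Γ(T.left, ⊤))
    (h : φ.comp (algebraMap k B) = structMap T) : comorph (homToSpec T φ h) = φ := by
  unfold comorph
  rw [homToSpec_left]
  have h2 : (Scheme.ΓSpecIso (CommRingCat.of B)).inv ≫
      (T.left.toSpecΓ ≫ Spec.map (CommRingCat.ofHom φ)).appTop = CommRingCat.ofHom φ := by
    rw [Scheme.Hom.comp_appTop, ← Scheme.ΓSpecIso_inv_naturality_assoc]
    rw [Scheme.toSpecΓ_appTop, Iso.inv_hom_id]
    exact Category.comp_id _
  exact congrArg (fun g => g.hom) h2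

theorem comorph_injective {T : Over (Spec (CommRingCat.of k))} {f g : T ⟶ specOver k B}
    (h : comorph f = comorph g) : f = g := by
  ext1
  apply ext_to_Spec
  exact CommRingCat.hom_ext h

theorem comorph_algebraMap {T : Over (Spec (CommRingCat.of k))} (f : T ⟶ specOver k B) :
    (comorph f).comp (algebraMap k B) = structMap T := by
  have hw : (show T.left ⟶ Spec (CommRingCat.of B) from f.left) ≫
      Spec.map (CommRingCat.ofHom (algebraMap k B)) = T.hom := Over.w f
  unfold comorph structMap
  have h1 : CommRingCat.ofHom (algebraMap k B) ≫ (Scheme.ΓSpecIso (CommRingCat.of B)).inv ≫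
      (show T.left ⟶ Spec (CommRingCat.of B) from f.left).appTop =
      (Scheme.ΓSpecIso (CommRingCat.of k)).inv ≫ T.hom.appTop := by
    rw [← hw, Scheme.Hom.comp_appTop, Scheme.ΓSpecIso_inv_naturality_assoc]
  exact congrArg (fun g => g.hom) h1

theorem comorph_comp_specMap {T : Over (Spec (CommRingCat.of k))} (f : T ⟶ specOver k B)
    (φ : C →ₐ[k] B) : comorph (f ≫ specMap k φ) = (comorph f).comp φ.toRingHom := by
  unfold comorph
  have h1 : (Scheme.ΓSpecIso (CommRingCat.of C)).inv ≫
      ((show T.left ⟶ Spec (CommRingCat.of B) from f.left) ≫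
        Spec.map (CommRingCat.ofHom φ.toRingHom)).appTop =
      CommRingCat.ofHom φ.toRingHom ≫ (Scheme.ΓSpecIso (CommRingCat.of B)).inv ≫
      (show T.left ⟶ Spec (CommRingCat.of B) from f.left).appTop := by
    rw [Scheme.Hom.comp_appTop, Scheme.ΓSpecIso_inv_naturality_assoc]
  exact congrArg (fun g => g.hom) h1

end HomToSpec

section Local

variable {k}

/-- Every point of a variety has an affine open neighbourhood which is the spectrum of a finitely
generated algebra. -/
theorem exists_affine_nhd (X : Variety k) (x : X.obj.left) :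
    ∃ (B : Type) (_ : CommRing B) (_ : Algebra k B) (_ : Algebra.FiniteType k B)
      (j : specOver k B ⟶ X.obj), IsOpenImmersion j.left ∧ x ∈ Set.range j.left := by
  obtain ⟨U, hU, hxU, -⟩ := exists_isAffineOpen_mem_and_subset (U := ⊤) (x := x) trivial
  let φ : CommRingCat.of k ⟶ Γ(X.obj.left, U) := Spec.preimage (hU.fromSpec ≫ X.obj.hom)
  have hφ : Spec.map φ = hU.fromSpec ≫ X.obj.hom := Spec.map_preimage _
  let _ : Algebra k Γ(X.obj.left, U) := φ.hom.toAlgebra
  have hft : RingHom.FiniteType φ.hom := by
    rw [← HasRingHomProperty.Spec_iff (P := @LocallyOfFiniteType), hφ]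
    infer_instance
  have hft' : Algebra.FiniteType k Γ(X.obj.left, U) := hft
  refine ⟨Γ(X.obj.left, U), inferInstance, inferInstance, hft', Over.homMk hU.fromSpec hφ.symm,
    ?_, ?_⟩
  · change IsOpenImmersion hU.fromSpec
    infer_instance
  · change x ∈ Set.range hU.fromSpec
    rw [hU.range_fromSpec]
    exact hxU

end Local

end Pool.Agent.Lib.MP_6cd1fc_ag
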