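import Pool.Agent.Lib.MP_6cd1fc_ag.Geom

/-!
# Points of varieties over finite extensions of the base field
-/

open AlgebraicGeometry CategoryTheory Limits TopologicalSpace Topology

namespace Pool.Agent.Lib.MP_6cd1fc_ag

variable {k : Type} [Field k]

section Lift

variable {T X Y : Over (Spec (CommRingCat.of k))}

theorem lift_open (j : Y ⟶ X) (hj : IsOpenImmersion j.left) (w : T ⟶ X)
    (h : Set.range w.left ⊆ Set.range j.left) : ∃ v : T ⟶ Y, v ≫ j = w := by
  refine ⟨Over.homMk (IsOpenImmersion.lift j.left w.left h) ?_, ?_⟩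
  · rw [← Over.w j, ← Category.assoc, IsOpenImmersion.lift_fac, Over.w]
  · ext1
    exact IsOpenImmersion.lift_fac _ _ _

theorem lift_closed (i : Y ⟶ X) (hi : IsClosedImmersion i.left) (w : T ⟶ X)
    (hT : IsReduced T.left)
    (h : Set.range w.left ⊆ Set.range i.left) : ∃ v : T ⟶ Y, v ≫ i = w := by
  have h1 : Surjective (pullback.fst w.left i.left) := by
    rw [surjective_iff, ← Set.range_eq_univ, Scheme.Pullback.range_fst]
    exact Set.eq_univ_of_forall fun x => h ⟨x, rfl⟩
  have h2 : IsIso (pullback.fst w.left i.left) := isIso_of_isClosedImmersion_of_surjective _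
  have h3 : (inv (pullback.fst w.left i.left) ≫ pullback.snd w.left i.left) ≫ i.left =
      w.left := by
    rw [Category.assoc, ← pullback.condition, IsIso.inv_hom_id_assoc]
  refine ⟨Over.homMk (inv (pullback.fst w.left i.left) ≫ pullback.snd w.left i.left) ?_, ?_⟩
  · rw [← Over.w i, ← Category.assoc, h3, Over.w]
  · ext1
    exact h3

theorem cancel_of_mono_left (i : Y ⟶ X) (hi : Mono i.left) {v v' : T ⟶ Y}
    (h : v ≫ i = v' ≫ i) : v = v' := by
  ext1
  rw [← cancel_mono i.left]
  exact congrArg (fun f => f.left) h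

end Lift

/-- The set `X(K)` of `K`-points of a scheme `X` over `k`. -/
abbrev Pts (X : Over (Spec (CommRingCat.of k))) (K : Type) [Field K] [Algebra k K] : Type :=
  specOver k K ⟶ X

section Finite

variable (K : Type) [Field K] [Algebra k K]

theorem range_point {X : Over (Spec (CommRingCat.of k))} (w : Pts X K) :
    ∃ x : X.left, Set.range w.left = {x} := by
  let pt : (specOver k K).left := (⊥ : PrimeSpectrum K)
  refine ⟨w.left pt, ?_⟩
  have hsub : Subsingleton (specOver k K).left := inferInstanceAs (Subsingleton (PrimeSpectrum K))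
  ext y
  constructor
  · rintro ⟨z, rfl⟩
    rw [Subsingleton.elim z pt]
    rfl
  · rintro rfl
    exact ⟨pt, rfl⟩

/-- The number of points of a variety of dimension at most `e` over a finite field `K` is at most
`N |K|^e`. -/
theorem points_bound (X : Variety k) (e : ℕ) (he : X.dim ≤ (e : ℕ∞)) :
    ∃ N : ℕ, ∀ (K : Type) [Field K] [Algebra k K] [Finite K],
      Finite (Pts X.obj K) ∧ Nat.card (Pts X.obj K) ≤ N * (Nat.card K) ^ e := by
  have hcpt : CompactSpace X.obj.left := QuasiCompact.compactSpace_of_compactSpace X.obj.hom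
  choose B hB1 hB2 hB3 j hj hx using exists_affine_nhd X
  -- the bound for each chart
  have hloc : ∀ x, ∃ N : ℕ, ∀ (K : Type) [Field K] [Algebra k K] [Finite K],
      Finite (B x →ₐ[k] K) ∧ Nat.card (B x →ₐ[k] K) ≤ N * (Nat.card K) ^ e := by
    intro x
    rcases subsingleton_or_nontrivial (B x) with h | h
    · refine ⟨0, fun K _ _ _ => ?_⟩
      have : IsEmpty (B x →ₐ[k] K) := ⟨fun φ => zero_ne_one (α := K) (by
        rw [← map_one φ, Subsingleton.elim (1 : B x) 0, map_zero])⟩
      exact ⟨inferInstance, by simp⟩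
    · obtain ⟨a, g, -, hg, ha⟩ := noether (k := k) (B x)
      obtain ⟨N, hN⟩ := card_algHom_le (B x) g hg
      refine ⟨N, fun K _ _ _ => ⟨(hN K).1, (hN K).2.trans ?_⟩⟩
      have hae : (a : WithBot ℕ∞) ≤ (e : ℕ∞) := by
        rw [← ha, ← PrimeSpectrum.topologicalKrullDim_eq_ringKrullDim]
        have h1 : topologicalKrullDim (specOver k (B x)).left ≤ topologicalKrullDim X.obj.left :=
          Topology.IsInducing.topologicalKrullDim_le (hj x).base_open.isInducing
        exact h1.trans he
      have hae' : a ≤ e := by exact_mod_cast hae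
      exact Nat.mul_le_mul_left _ (Nat.pow_le_pow_right Nat.card_pos hae')
  choose N hN using hloc
  obtain ⟨t, ht⟩ := (isCompact_univ (X := X.obj.left)).elim_finite_subcover
    (fun x => Set.range (j x).left) (fun x => (hj x).base_open.isOpen_range)
    (fun x _ => Set.mem_iUnion.2 ⟨x, hx x⟩)
  refine ⟨∑ x ∈ t, N x, fun K _ _ _ => ?_⟩
  -- the surjection from the points of the charts
  let F : (Σ x : t, (B x.1 →ₐ[k] K)) → Pts X.obj K := fun p => specMap k p.2 ≫ j p.1.1
  have hF : Function.Surjective F := by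
    intro w
    obtain ⟨y, hy⟩ := range_point K w
    obtain ⟨x, hxt, hxy⟩ : ∃ x ∈ t, y ∈ Set.range (j x).left := by
      simpa using ht (Set.mem_univ y)
    obtain ⟨v, hv⟩ := lift_open (j x) (hj x) w (by
      rw [hy]; exact Set.singleton_subset_iff.2 hxy)
    obtain ⟨φ, rfl⟩ := (specMap_bijective k).2 v
    exact ⟨⟨⟨x, hxt⟩, φ⟩, hv⟩
  have hfin : ∀ x : t, Finite (B x.1 →ₐ[k] K) := fun x => (hN x.1 K).1
  refine ⟨Finite.of_surjective F hF, (Nat.card_le_card_of_surjective F hF).trans ?_⟩
  rw [Nat.card_sigma, Finset.sum_mul, ← Finset.sum_coe_sort t]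
  exact Finset.sum_le_sum fun x _ => (hN x.1 K).2

end Finite

end Pool.Agent.Lib.MP_6cd1fc_ag
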