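import Pool.Agent.Lib.MP_6cd1fc_ag.Points

/-!
# The point counting realisation of the Grothendieck ring
-/

open AlgebraicGeometry CategoryTheory Limits TopologicalSpace Topology

namespace Pool.Agent.Lib.MP_6cd1fc_ag

variable {k : Type} [Field k]

section

variable (K : Type) [Field K] [Algebra k K] [Finite K]

theorem exists_dim_bound (X : Variety k) : ∃ e : ℕ, X.dim ≤ (e : ℕ∞) := by
  have hcpt : CompactSpace X.obj.left := QuasiCompact.compactSpace_of_compactSpace X.obj.hom
  choose B hB1 hB2 hB3 j hj hx using exists_affine_nhd X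
  have hloc : ∀ x, ∃ a : ℕ, topologicalKrullDim (specOver k (B x)).left ≤ (a : ℕ∞) := by
    intro x
    change ∃ a : ℕ, topologicalKrullDim (PrimeSpectrum (B x)) ≤ (a : ℕ∞)
    rcases subsingleton_or_nontrivial (B x) with h | h
    · refine ⟨0, ?_⟩
      rw [PrimeSpectrum.topologicalKrullDim_eq_ringKrullDim, ringKrullDim_eq_bot_of_subsingleton]
      exact bot_le
    · obtain ⟨a, g, -, hg, ha⟩ := noether (k := k) (B x)
      refine ⟨a, ?_⟩
      rw [PrimeSpectrum.topologicalKrullDim_eq_ringKrullDim, ha]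
      rfl
  choose a ha using hloc
  obtain ⟨t, ht⟩ := (isCompact_univ (X := X.obj.left)).elim_finite_subcover
    (fun x => Set.range (j x).left) (fun x => (hj x).base_open.isOpen_range)
    (fun x _ => Set.mem_iUnion.2 ⟨x, hx x⟩)
  refine ⟨t.sup a, topDim_le_of_local fun y => ?_⟩
  obtain ⟨x, hxt, hxy⟩ : ∃ x ∈ t, y ∈ Set.range (j x).left := by
    simpa using ht (Set.mem_univ y)
  refine ⟨(specOver k (B x)).left, inferInstance, (j x).left, (hj x).base_open, hxy,
    (ha x).trans ?_⟩
  exact_mod_cast Finset.le_sup (f := a) hxt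

theorem finite_points (X : Variety k) : Finite (Pts X.obj K) := by
  obtain ⟨e, he⟩ := exists_dim_bound X
  obtain ⟨N, hN⟩ := points_bound X e he
  exact (hN K).1

/-- The number of `K`-points. -/
noncomputable def numPts (X : Variety k) : ℕ := Nat.card (Pts X.obj K)

omit [Finite K] in
theorem numPts_unit (T : Variety k) (h : IsIso T.obj.hom) : numPts K T = 1 := by
  unfold numPts
  rw [Nat.card_eq_one_iff_unique]
  refine ⟨⟨fun v w => ?_⟩, ⟨Over.homMk ((specOver k K).hom ≫ inv T.obj.hom) (by simp)⟩⟩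
  ext1
  rw [← cancel_mono T.obj.hom, Over.w, Over.w]

omit [Finite K] in
theorem numPts_iso (X Y : Variety k) (e : X.obj ≅ Y.obj) : numPts K X = numPts K Y := by
  unfold numPts
  exact Nat.card_congr ⟨fun v => v ≫ e.hom, fun v => v ≫ e.inv, fun v => by simp,
    fun v => by simp⟩

theorem numPts_scissor (X Z U : Variety k) (i : Z.obj ⟶ X.obj) (j : U.obj ⟶ X.obj)
    (hi : IsClosedImmersion i.left) (hj : IsOpenImmersion j.left)
    (h : Set.range i.left = (Set.range j.left)ᶜ) :
    numPts K X = numPts K Z + numPts K U := by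
  unfold numPts
  have hZ := finite_points K Z
  have hU := finite_points K U
  rw [← Nat.card_sum]
  symm
  refine Nat.card_congr (Equiv.ofBijective
    (Sum.elim (fun v : Pts Z.obj K => v ≫ i) (fun v : Pts U.obj K => v ≫ j)) ⟨?_, ?_⟩)
  · have hdisj : ∀ (v : Pts Z.obj K) (w : Pts U.obj K), v ≫ i ≠ w ≫ j := by
      intro v w hvw
      let pt : (specOver k K).left := (⊥ : PrimeSpectrum K)
      have h1 : i.left (v.left pt) ∈ Set.range j.left := by
        refine ⟨w.left pt, ?_⟩
        have h2 : (w ≫ j).left pt = (v ≫ i).left pt := by rw [hvw]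
        simpa using h2
      have h2 : i.left (v.left pt) ∈ Set.range i.left := ⟨_, rfl⟩
      rw [h] at h2
      exact h2 h1
    have hmi : Mono i.left := inferInstance
    have hmj : Mono j.left := inferInstance
    rintro (v | v) (w | w) hvw
    · exact congrArg Sum.inl (cancel_of_mono_left i hmi hvw)
    · exact absurd hvw (hdisj v w)
    · exact absurd hvw.symm (hdisj w v)
    · exact congrArg Sum.inr (cancel_of_mono_left j hmj hvw)
  · intro w
    obtain ⟨y, hy⟩ := range_point K w
    by_cases hyj : y ∈ Set.range j.left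
    · obtain ⟨v, hv⟩ := lift_open j hj w (by rw [hy]; exact Set.singleton_subset_iff.2 hyj)
      exact ⟨Sum.inr v, hv⟩
    · have hyi : y ∈ Set.range i.left := by rw [h]; exact hyj
      have hred : IsReduced (specOver k K).left :=
        inferInstanceAs (IsReduced (Spec (CommRingCat.of K)))
      obtain ⟨v, hv⟩ := lift_closed i hi w hred
        (by rw [hy]; exact Set.singleton_subset_iff.2 hyi)
      exact ⟨Sum.inl v, hv⟩

omit [Finite K] in
theorem numPts_prod (X Y P : Variety k) (p : P.obj ⟶ X.obj) (q : P.obj ⟶ Y.obj)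
    (h : ∀ (T : Over (Spec (CommRingCat.of k))) (f : T ⟶ X.obj) (g : T ⟶ Y.obj),
        ∃! l : T ⟶ P.obj, l ≫ p = f ∧ l ≫ q = g) :
    numPts K P = numPts K X * numPts K Y := by
  unfold numPts
  rw [← Nat.card_prod]
  refine Nat.card_congr (Equiv.ofBijective (fun v : Pts P.obj K => (v ≫ p, v ≫ q)) ⟨?_, ?_⟩)
  · intro v w hvw
    obtain ⟨l, -, hl⟩ := h _ (v ≫ p) (v ≫ q)
    rw [hl v ⟨rfl, rfl⟩, hl w ⟨(congrArg Prod.fst hvw).symm, (congrArg Prod.snd hvw).symm⟩]
  · rintro ⟨f, g⟩
    obtain ⟨l, ⟨h1, h2⟩, -⟩ := h _ f g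
    exact ⟨l, Prod.ext h1 h2⟩

/-- The point counting homomorphism on the Grothendieck ring of varieties. -/
noncomputable def countK0 : K0 k →+* ℝ :=
  Ideal.Quotient.lift (Ideal.span {f | K0Rel k f}) (MvPolynomial.eval₂Hom (Int.castRingHom ℝ) fun X => (numPts K X : ℝ)) (by
    intro f hf
    have hle : Ideal.span {f | K0Rel k f} ≤ RingHom.ker (MvPolynomial.eval₂Hom
        (Int.castRingHom ℝ) fun X : Variety k => (numPts K X : ℝ)) := by
      rw [Ideal.span_le]
      rintro f (⟨T, h⟩ | ⟨X, Y, e⟩ | ⟨X, Z, U, i, j, hi, hj, h⟩ | ⟨X, Y, P, p, q, h⟩)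
      · simp [numPts_unit K T h]
      · simp [numPts_iso K X Y e]
      · have h' : Set.range i.left = (Set.range j.left)ᶜ := h
        simp [numPts_scissor K X Z U i j hi hj h']
      · simp [numPts_prod K X Y P p q h]
    exact RingHom.mem_ker.1 (hle hf))

theorem countK0_cls (X : Variety k) : countK0 K (cls X) = numPts K X := by
  refine (Ideal.Quotient.lift_mk (Ideal.span {f | K0Rel k f}) _ _).trans ?_
  simp

omit [Finite K] in
/-- Points of affine space. -/
theorem numPts_affineSpace (m : ℕ) : numPts K (affineSpace k m) = Nat.card K ^ m := by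
  unfold numPts
  change Nat.card (specOver k K ⟶ specOver k (MvPolynomial (Fin m) k)) = _
  rw [← Nat.card_congr (Equiv.ofBijective _ (specMap_bijective k (B := K)
    (C := MvPolynomial (Fin m) k)))]
  rw [Nat.card_congr (β := Fin m → K) ⟨fun φ i => φ (MvPolynomial.X i),
    fun c => MvPolynomial.aeval c, fun φ => by ext; simp, fun c => by ext; simp⟩,
    Nat.card_fun, Nat.card_fin]

theorem countK0_lef : countK0 K (lef k) = Nat.card K := by
  rw [lef, countK0_cls, numPts_affineSpace, pow_one]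

theorem card_ne_zero : (Nat.card K : ℝ) ≠ 0 := by
  exact_mod_cast (Nat.card_pos (α := K)).ne'

/-- The point counting homomorphism on `K₀(Varₖ)[𝕃⁻¹]`. -/
noncomputable def countL : K0L k →+* ℝ :=
  IsLocalization.Away.lift (lef k) (g := countK0 K)
    (by rw [countK0_lef]; exact (card_ne_zero K).isUnit)

theorem countL_algebraMap (x : K0 k) : countL K (algebraMap (K0 k) (K0L k) x) = countK0 K x :=
  IsLocalization.Away.lift_eq _ _ _

theorem countL_clsL (X : Variety k) : countL K (clsL X) = numPts K X := by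
  rw [clsL, countL_algebraMap, countK0_cls]

theorem countL_lefUnit_zpow (p : ℤ) :
    countL K ((lefUnit k ^ p : (K0L k)ˣ) : K0L k) = (Nat.card K : ℝ) ^ p := by
  have h1 : Units.map (countL (k := k) K).toMonoidHom (lefUnit k) = Units.mk0 _ (card_ne_zero K) := by
    ext
    change countL K (algebraMap (K0 k) (K0L k) (lef k)) = _
    rw [countL_algebraMap, countK0_lef]
    rfl
  have h2 : countL K ((lefUnit k ^ p : (K0L k)ˣ) : K0L k) =
      ((Units.map (countL (k := k) K).toMonoidHom (lefUnit k ^ p) : ℝˣ) : ℝ) := rfl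
  rw [h2, map_zpow, h1]
  simp

end

/-- The fundamental growth estimate: the point counts of an element of `F_m` are
`O(|K|^{-m})`. -/
theorem countL_bound {m : ℤ} {x : K0L k} (hx : x ∈ filt k m) :
    ∃ C : ℝ, ∀ (K : Type) [Field K] [Algebra k K] [Finite K],
      |countL K x| ≤ C * (Nat.card K : ℝ) ^ (-m) := by
  induction hx using AddSubgroup.closure_induction with
  | mem x hx =>
    obtain ⟨X, e, p, he, hp, rfl⟩ := hx
    obtain ⟨N, hN⟩ := points_bound X e he
    refine ⟨N, fun K _ _ _ => ?_⟩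
    have hpos : (0 : ℝ) < Nat.card K := by exact_mod_cast Nat.card_pos (α := K)
    have hone : (1 : ℝ) ≤ Nat.card K := by exact_mod_cast Nat.card_pos (α := K)
    rw [map_mul, countL_clsL, countL_lefUnit_zpow, abs_of_nonneg (by positivity)]
    have h1 : (numPts K X : ℝ) ≤ N * (Nat.card K : ℝ) ^ e := by
      exact_mod_cast (hN K).2
    calc (numPts K X : ℝ) * (Nat.card K : ℝ) ^ (-p)
        ≤ (N * (Nat.card K : ℝ) ^ e) * (Nat.card K : ℝ) ^ (-p) :=
          mul_le_mul_of_nonneg_right h1 (by positivity)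
      _ = N * (Nat.card K : ℝ) ^ ((e : ℤ) - p) := by
          rw [mul_assoc, ← zpow_natCast, ← zpow_add₀ hpos.ne', sub_eq_add_neg]
      _ ≤ N * (Nat.card K : ℝ) ^ (-m) :=
          mul_le_mul_of_nonneg_left (zpow_le_zpow_right₀ hone hp) (by positivity)
  | zero => exact ⟨0, fun K _ _ _ => by simp⟩
  | add x y _ _ hx hy =>
    obtain ⟨C, hC⟩ := hx
    obtain ⟨D, hD⟩ := hy
    refine ⟨C + D, fun K _ _ _ => ?_⟩
    rw [map_add, add_mul]
    exact (abs_add_le _ _).trans (add_le_add (hC K) (hD K))
  | neg x _ hx =>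
    obtain ⟨C, hC⟩ := hx
    refine ⟨C, fun K _ _ _ => ?_⟩
    rw [map_neg, abs_neg]
    exact hC K

end Pool.Agent.Lib.MP_6cd1fc_ag
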