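import Pool.Agent.Lib.MP_6cd1fc_ag.TopoDefs

/-!
# Graded spaces, symmetric powers, powerfree loci and the stabilisation statement
-/

open AlgebraicGeometry CategoryTheory Limits TopologicalSpace Topology Filter

namespace Pool.Agent.Lib.MP_6cd1fc_ag

/-- The functions of a scheme on an open set. -/
def Fn (X : Scheme.{0}) (V : X.Opens) : Type := Γ(X, V)

/-- The preimage of an open set. -/
def preim {X Y : Scheme.{0}} (f : X ⟶ Y) (V : Y.Opens) : X.Opens := f ⁻¹ᵁ V

/-- The value of a homomorphism of commutative rings. -/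
def ev {A B : CommRingCat.{0}} (φ : A ⟶ B) (x : A) : B := φ.hom x

/-- The pull back of a function on `V` under `f : X ⟶ Y`. -/
def pull {X Y : Scheme.{0}} (f : X ⟶ Y) (V : Y.Opens) (x : Fn Y V) : Fn X (preim f V) :=
  ev (f.app V) x

/-- The pull back of a function on `V` under `f : X ⟶ Y`, restricted to `W ⊆ f⁻¹(V)`. -/
def pullLE {X Y : Scheme.{0}} (f : X ⟶ Y) (V : Y.Opens) (W : X.Opens) (h : W ≤ preim f V)
    (x : Fn Y V) : Fn X W :=
  ev (f.appLE V W h) x

/-- The function `f` on the open set `W` is invariant under the endomorphisms of `P` in `A`. -/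
def IsInvariant {P : Scheme.{0}} (A : Set (P ⟶ P)) (W : P.Opens) (f : Fn P W) : Prop :=
  ∀ g ∈ A, ∀ h : W ≤ preim g W, pullLE g W W h f = f

/-- Over the open set `V`, the functions on `S` are (via `π`) the `A`-invariant functions on `P`. -/
def FunctionsInvariant {P S : Scheme.{0}} (π : P ⟶ S) (A : Set (P ⟶ P)) (V : S.Opens) : Prop :=
  Function.Injective (pull π V) ∧
    ∀ f : Fn P (preim π V), IsInvariant A (preim π V) f → ∃ f₀ : Fn S V, pull π V f₀ = f

/-- The automorphisms of the power `P` of `X` that permute the factors. -/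
def permMaps {k : Type} [Field k] {P X : Over (Spec (CommRingCat.of k))} {m : ℕ}
    (proj : Fin m → (P ⟶ X)) : Set (P ⟶ P) :=
  {g | ∃ σ : Equiv.Perm (Fin m), ∀ a, g ≫ proj a = proj (σ a)}

/-- The `m`-th symmetric power of the variety `U`: the `m`-fold fibre power `P = U^m` over `k`
together with its quotient `π : P ⟶ S` by the symmetric group, i.e. `π` is affine, invariant
under permutations of the factors, and, locally on `S`, the functions on `S` are exactly the
invariant functions on `P`. -/
structure SymPower {k : Type} [Field k] (U : Variety k) (m : ℕ) where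
  /-- the fibre power `U^m` -/
  P : Over (Spec (CommRingCat.of k))
  /-- the projections of `U^m` -/
  proj : Fin m → (P ⟶ U.obj)
  isProd : ∀ (T : Over (Spec (CommRingCat.of k))) (f : Fin m → (T ⟶ U.obj)),
    ∃! g : T ⟶ P, ∀ a, g ≫ proj a = f a
  /-- the symmetric power `Sym^m U` -/
  S : Variety k
  /-- the quotient map `U^m ⟶ Sym^m U` -/
  π : P ⟶ S.obj
  affine : IsAffineHom π.left
  invariant : ∀ g ∈ permMaps proj, g ≫ π = π
  quotient : ∀ s : S.obj.left, ∃ V : S.obj.left.Opens, s ∈ V ∧ IsAffineOpen V ∧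
    FunctionsInvariant π.left ((fun g : P ⟶ P => g.left) '' permMaps proj) V

/-- A graded space `𝒰 = (𝒰_1, 𝒰_2, ...)` over `k` whose nonempty members are geometrically
irreducible and one of whose members has positive dimension; here `U i` is `𝒰_{i+1}`. -/
structure GradedSpace (k : Type) [Field k] where
  /-- the space `𝒰_{i+1}` -/
  U : ℕ → Variety k
  irreducible : ∀ i, Nonempty (U i).obj.left → GeometricallyIrreducible (U i).obj.hom
  positive : ∃ i, 1 ≤ (U i).dim

variable {k : Type} [Field k]

/-- The spaces of zero-cycles on a graded space. A cycle type of degree `d` is a partition `l` of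
`d`; its `i`-th multiplicity `m_i = l.parts.count i` is the degree of the part of the cycle on
`𝒰_i`. The component of `𝒳_d` of type `l` is the product over all `i ≥ 1` of the `Sym^{m_i} 𝒰_i`
(all but finitely many factors are `Sym^0 𝒰_i`, a point). -/
structure CycleSpaces (G : GradedSpace k) where
  /-- the symmetric powers `Sym^m 𝒰_{i+1}` -/
  sym : ∀ i m : ℕ, SymPower (G.U i) m
  /-- the component of `𝒳_d` of type `l` -/
  comp : ∀ (d : ℕ), Nat.Partition d → Variety k
  /-- the projection of the component of type `l` to `Sym^{m_{i+1}} 𝒰_{i+1}` -/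
  proj : ∀ (d : ℕ) (l : Nat.Partition d) (i : ℕ),
    (comp d l).obj ⟶ (sym i (l.parts.count (i + 1))).S.obj
  isProd : ∀ (d : ℕ) (l : Nat.Partition d) (T : Over (Spec (CommRingCat.of k)))
    (f : ∀ i : ℕ, T ⟶ (sym i (l.parts.count (i + 1))).S.obj),
    ∃! g : T ⟶ (comp d l).obj, ∀ i, g ≫ proj d l i = f i

/-- The class `[𝒳_d]` of the disjoint union of the components of all types. -/
noncomputable def CycleSpaces.clsX {G : GradedSpace k} (C : CycleSpaces G) (d : ℕ) : K0 k :=
  ∑ l : Nat.Partition d, cls (C.comp d l)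

/-- Let `w j` (`j = 1, ..., r`) be geometric points of the components of type `l j` of
`𝒳_{d_j}`. The gcd of the cycles `w j` is `n`-powerfree: there are ordered tuples `y j i` of points
of `𝒰_{i+1}` representing the part on `𝒰_{i+1}` of the cycle `w j`, and for every geometric point
`x` of every `𝒰_{i+1}` the minimum over `j` of the multiplicities of `x` in `y j i` is less than
`n`. -/
def IsPowerfree {G : GradedSpace k} (C : CycleSpaces G) {r : ℕ} (n : ℕ) {d : Fin r → ℕ}
    (l : ∀ j, Nat.Partition (d j)) (K : Type) [Field K] [Algebra k K]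
    (w : ∀ j, specOver k K ⟶ (C.comp (d j) (l j)).obj) : Prop :=
  ∃ y : ∀ (j : Fin r) (i : ℕ), specOver k K ⟶ (C.sym i ((l j).parts.count (i + 1))).P,
    (∀ j i, y j i ≫ (C.sym i ((l j).parts.count (i + 1))).π = w j ≫ C.proj (d j) (l j) i) ∧
    ∀ (i : ℕ) (x : specOver k K ⟶ (G.U i).obj), ∃ j : Fin r,
      Nat.card {a : Fin ((l j).parts.count (i + 1)) //
        y j i ≫ (C.sym i ((l j).parts.count (i + 1))).proj a = x} < n

/-- The products `𝒳_{d_1} × ... × 𝒳_{d_r}` (given by the products `W` of their components)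
and the open subschemes `Z` of tuples of cycles with `n`-powerfree gcd. -/
structure PowerfreeLoci {G : GradedSpace k} (C : CycleSpaces G) (r n : ℕ) where
  /-- the product of the components of type `l j` of `𝒳_{d_j}` -/
  W : ∀ (d : Fin r → ℕ), (∀ j, Nat.Partition (d j)) → Variety k
  /-- the projections -/
  proj : ∀ (d : Fin r → ℕ) (l : ∀ j, Nat.Partition (d j)) (j : Fin r),
    (W d l).obj ⟶ (C.comp (d j) (l j)).obj
  isProd : ∀ (d : Fin r → ℕ) (l : ∀ j, Nat.Partition (d j)) (T : Over (Spec (CommRingCat.of k)))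
    (f : ∀ j, T ⟶ (C.comp (d j) (l j)).obj), ∃! g : T ⟶ (W d l).obj, ∀ j, g ≫ proj d l j = f j
  /-- the powerfree locus in `W` -/
  Z : ∀ (d : Fin r → ℕ), (∀ j, Nat.Partition (d j)) → Variety k
  /-- the inclusion of the powerfree locus -/
  ι : ∀ (d : Fin r → ℕ) (l : ∀ j, Nat.Partition (d j)), (Z d l).obj ⟶ (W d l).obj
  isOpen : ∀ (d : Fin r → ℕ) (l : ∀ j, Nat.Partition (d j)), IsOpenImmersion (ι d l).left
  points : ∀ (d : Fin r → ℕ) (l : ∀ j, Nat.Partition (d j)) (K : Type) [Field K] [Algebra k K]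
    [IsAlgClosed K] (w : specOver k K ⟶ (W d l).obj),
    (∃ z : specOver k K ⟶ (Z d l).obj, z ≫ ι d l = w) ↔
      IsPowerfree C n l K (fun j => w ≫ proj d l j)

/-- The class `[𝒵_n^{d}]`. -/
noncomputable def PowerfreeLoci.clsZ {G : GradedSpace k} {C : CycleSpaces G} {r n : ℕ}
    (L : PowerfreeLoci C r n) (d : Fin r → ℕ) : K0 k :=
  ∑ l : ∀ j, Nat.Partition (d j), cls (L.Z d l)

variable (k)

/-- The image in the completion of an element of `K₀(Varₖ)`. -/
noncomputable def toMHat : K0 k →+* MHat k := (toHat k).comp (algebraMap (K0 k) (K0L k))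

/-- The image in the completion of the power `𝕃^p`. -/
noncomputable def lefPow (p : ℤ) : MHat k := toHat k ((lefUnit k ^ p : (K0L k)ˣ) : K0L k)

/-- The data of the stabilisation problem. -/
structure Setup where
  /-- the graded space `𝒰` -/
  G : GradedSpace k
  /-- the spaces of cycles `𝒳_d` -/
  C : CycleSpaces G
  r : ℕ
  n : ℕ
  one_le_r : 1 ≤ r
  one_le_n : 1 ≤ n
  /-- the powerfree loci -/
  L : PowerfreeLoci C r n
  /-- `dimX d` is the dimension of `𝒳_d` -/
  dimX : ℕ → ℕ
  dimX_eq : ∀ d, ⨆ l : Nat.Partition d, (C.comp d l).dim = ((dimX d : ℕ∞) : WithBot ℕ∞)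
  /-- the coefficients of the inverse of the generating series of the `[𝒳_d]` -/
  a : ℕ → K0 k
  a_spec : PowerSeries.mk C.clsX * PowerSeries.mk a = 1
  /-- the topological ring -/
  R : Type 1
  [commRing : CommRing R]
  [topologicalSpace : TopologicalSpace R]
  [isTopologicalRing : IsTopologicalRing R]
  /-- the motivic measure -/
  μ : MHat k →+* R
  continuous_μ : Continuous μ
  /-- `μ(𝒳_d)` as a unit of `R` -/
  unitX : ℕ → Rˣ
  unitX_eq : ∀ d, (unitX d : R) = μ (toMHat k (C.clsX d))

attribute [instance] Setup.commRing Setup.topologicalSpace Setup.isTopologicalRing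

namespace Setup

variable {k} (D : Setup k)

/-- The term `a_m 𝕃^{-r dim 𝒳_{mn}}` of the target series, for `m = j + 1`. -/
noncomputable def term (j : ℕ) : MHat k :=
  toMHat k (D.a (j + 1)) * lefPow k (-(D.r * D.dimX ((j + 1) * D.n) : ℕ))

/-- The ratio `μ(𝒵_n^d) / μ(𝒳_{d_1} × ... × 𝒳_{d_r})`. -/
noncomputable def ratio (d : Fin D.r → ℕ) : D.R :=
  D.μ (toMHat k (D.L.clsZ d)) * ∏ j, ((D.unitX (d j))⁻¹ : D.Rˣ)

/-- The assertion of the stabilisation problem: the target series converges, with sum `S`, and the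
ratio tends to `μ(1 + S)` as all the `d_j` tend to infinity. -/
def Stabilizes : Prop :=
  ∃ S : MHat k, HasSum D.term S ∧ Tendsto D.ratio atTop (𝓝 (D.μ (1 + S)))

end Setup

end Pool.Agent.Lib.MP_6cd1fc_ag
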