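import Pool.Agent.Lib.MP_6cd1fc_ag.ExBasic

/-!
# The symmetric powers of the affine line
-/

open AlgebraicGeometry CategoryTheory Limits TopologicalSpace Topology Filter

namespace Pool.Agent.Lib.MP_6cd1fc_ag

section Alg

variable (k : Type) [Field k] (m : ℕ)

/-- The homomorphism sending the coordinates to the elementary symmetric polynomials. -/
noncomputable def esymmHom : MvPolynomial (Fin m) k →ₐ[k] MvPolynomial (Fin m) k :=
  MvPolynomial.aeval fun i : Fin m => MvPolynomial.esymm (Fin m) k (i + 1)

theorem esymmHom_eq (p : MvPolynomial (Fin m) k) :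
    esymmHom k m p = (MvPolynomial.esymmAlgHom (Fin m) k m p).val :=
  (MvPolynomial.esymmAlgHom_apply (σ := Fin m) (R := k) (n := m) p).symm

theorem esymmHom_injective : Function.Injective (esymmHom k m) := by
  intro p q h
  rw [esymmHom_eq, esymmHom_eq] at h
  exact MvPolynomial.esymmAlgHom_fin_injective k le_rfl (Subtype.ext h)

theorem exists_esymmHom {p : MvPolynomial (Fin m) k}
    (hp : ∀ σ : Equiv.Perm (Fin m), MvPolynomial.rename σ p = p) :
    ∃ q, esymmHom k m q = p := by
  obtain ⟨q, hq⟩ := (MvPolynomial.esymmAlgHom_fin_bijective k m).2 ⟨p, hp⟩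
  exact ⟨q, by rw [esymmHom_eq, hq]⟩

theorem rename_esymmHom (σ : Equiv.Perm (Fin m)) (q : MvPolynomial (Fin m) k) :
    MvPolynomial.rename σ (esymmHom k m q) = esymmHom k m q := by
  rw [esymmHom_eq]
  exact (MvPolynomial.esymmAlgHom (Fin m) k m q).2 σ

end Alg

variable {k : Type} [Field k]

section Comorph

variable {B C : Type} [CommRing B] [Algebra k B] [CommRing C] [Algebra k C]

variable (k B) in
/-- The identification of an algebra with the global sections of its spectrum. -/
noncomputable def gam : B →+* Γ((specOver k B).left, ⊤) := comorph (𝟙 (specOver k B))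

theorem gam_eq : gam k B = (Scheme.ΓSpecIso (CommRingCat.of B)).inv.hom :=
  congrArg (fun g => g.hom) (Category.comp_id (Scheme.ΓSpecIso (CommRingCat.of B)).inv)

theorem gam_bijective : Function.Bijective (gam k B) := by
  rw [gam_eq]
  exact (Scheme.ΓSpecIso (CommRingCat.of B)).symm.commRingCatIsoToRingEquiv.bijective

theorem comorph_specMap (φ : C →ₐ[k] B) (c : C) : comorph (specMap k φ) c = gam k B (φ c) := by
  have h1 := comorph_comp_specMap (𝟙 (specOver k B)) φ
  rw [Category.id_comp] at h1
  exact congrArg (fun h => h c) h1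

theorem appTop_gam (φ : C →ₐ[k] B) (c : C) :
    (specMap k φ).left.appTop (gam k C c) = gam k B (φ c) := by
  rw [← comorph_specMap]
  rw [gam_eq (B := C)]
  rfl

end Comorph

theorem specMap_rename_comp {ι ι' ι'' : Type} (ρ : ι → ι') (τ : ι' → ι'') :
    specMap k (MvPolynomial.rename τ : MvPolynomial ι' k →ₐ[k] _) ≫
      specMap k (MvPolynomial.rename ρ : MvPolynomial ι k →ₐ[k] _) =
      specMap k (MvPolynomial.rename (τ ∘ ρ)) := by
  rw [specMap_comp]
  congr 1
  ext i
  simp

/-- The symmetric powers of the affine line. -/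
noncomputable def symLine (m : ℕ) : SymPower (affineSpace k 1) m where
  P := aff k (Fin m)
  proj a := specMap k (MvPolynomial.rename fun _ : Fin 1 => a)
  isProd T f := aff_isProd (fun (a : Fin m) (_ : Fin 1) => a)
    ⟨fun p q h => Sigma.ext h (heq_of_eq (Subsingleton.elim _ _)), fun a => ⟨⟨a, 0⟩, rfl⟩⟩ f
  S := affineSpace k m
  π := specMap k (esymmHom k m)
  affine := by
    change IsAffineHom (Spec.map _)
    infer_instance
  invariant := by
    rintro g ⟨σ, hg⟩
    have h1 : g = specMap k (MvPolynomial.rename σ) := by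
      obtain ⟨u, -, hu⟩ := aff_isProd (T := aff k (Fin m)) (fun (a : Fin m) (_ : Fin 1) => a)
        ⟨fun p q h => Sigma.ext h (heq_of_eq (Subsingleton.elim _ _)), fun a => ⟨⟨a, 0⟩, rfl⟩⟩
        (fun a => specMap k (MvPolynomial.rename fun _ : Fin 1 => σ a))
      rw [hu g hg, hu (specMap k (MvPolynomial.rename σ)) fun a => specMap_rename_comp _ _]
    rw [h1]
    refine (specMap_comp k _ _).trans ?_
    congr 1
    exact AlgHom.ext fun q => rename_esymmHom k m σ q
  quotient := by
    intro s
    have haff : IsAffine (affineSpace k m).obj.left :=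
      inferInstanceAs (IsAffine (Spec (CommRingCat.of (MvPolynomial (Fin m) k))))
    refine ⟨⊤, trivial, isAffineOpen_top _, ?_, ?_⟩
    · intro x y h
      obtain ⟨x, rfl⟩ := (gam_bijective (k := k)).2 x
      obtain ⟨y, rfl⟩ := (gam_bijective (k := k)).2 y
      have h1 : (specMap k (esymmHom k m)).left.appTop (gam k _ x) =
        (specMap k (esymmHom k m)).left.appTop (gam k _ y) := h
      rw [appTop_gam, appTop_gam] at h1
      rw [esymmHom_injective k m (gam_bijective.1 h1)]
    · intro f hf
      obtain ⟨p, rfl⟩ := (gam_bijective (k := k) (B := MvPolynomial (Fin m) k)).2 f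
      obtain ⟨q, rfl⟩ := exists_esymmHom k m (p := p) (fun σ => by
        have h1 := hf (specMap k (MvPolynomial.rename σ)).left
          ⟨specMap k (MvPolynomial.rename σ), ⟨σ, fun a => specMap_rename_comp _ _⟩, rfl⟩ le_rfl
        have h2 : (specMap k (MvPolynomial.rename σ : MvPolynomial (Fin m) k →ₐ[k] _)).left.appTop
          (gam k _ p) = gam k _ p := by
          rw [Scheme.Hom.appTop, ← Scheme.Hom.appLE_eq_app]
          exact h1
        rw [appTop_gam] at h2
        exact gam_bijective.1 h2)
      exact ⟨gam k _ q, appTop_gam (esymmHom k m) q⟩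

end Pool.Agent.Lib.MP_6cd1fc_ag
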