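import Pool.Agent.Lib.MP_6cd1fc_ag.Filt

/-!
# The topology of `K₀(Varₖ)[𝕃⁻¹]` and its completion
-/

open UniformSpace

namespace Pool.Agent.Lib.MP_6cd1fc_ag

variable (k : Type) [Field k]

/-- The subgroups `F_m` form a basis of neighbourhoods of `0` of a ring topology. -/
theorem filt_basis : RingSubgroupsBasis (filt k) := filt_basis_aux k

/-- The uniform structure on `K₀(Varₖ)[𝕃⁻¹]` of the ring topology in which the `F_m` form a basis
of neighbourhoods of `0`. -/
noncomputable instance : UniformSpace (K0L k) :=
  letI := (filt_basis k).topology
  haveI : IsTopologicalRing (K0L k) := (filt_basis k).toRingFilterBasis.isTopologicalRing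
  IsTopologicalAddGroup.rightUniformSpace (K0L k)

instance : IsTopologicalRing (K0L k) :=
  (filt_basis k).toRingFilterBasis.isTopologicalRing

instance : IsUniformAddGroup (K0L k) :=
  letI := (filt_basis k).topology
  haveI : IsTopologicalRing (K0L k) := (filt_basis k).toRingFilterBasis.isTopologicalRing
  isUniformAddGroup_of_addCommGroup

/-- The completed Grothendieck ring, i.e. the inverse limit of the quotients
`K₀(Varₖ)[𝕃⁻¹] / F_m`. -/
def MHat : Type 1 := Completion (K0L k)

noncomputable instance : CommRing (MHat k) := (inferInstance : CommRing (Completion (K0L k)))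

noncomputable instance : UniformSpace (MHat k) :=
  (inferInstance : UniformSpace (Completion (K0L k)))

/-- The canonical homomorphism to the completion. -/
noncomputable def toHat : K0L k →+* MHat k := Completion.coeRingHom (α := K0L k)

end Pool.Agent.Lib.MP_6cd1fc_ag
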